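import Pool.Agent.TH656.Bt.Sound

/-!
# A packing gives a book embedding with four pages
-/

set_option autoImplicit false

namespace Pool.Agent.TH656.Bt

theorem sum_step {a : List ℕ} {f : ℕ → ℕ} {j i N : ℕ} (hi : i < N) (hfi : f i = j) :
    ∑ i ∈ (Finset.range i).filter (fun i => f i = j), a.getD i 0 + a.getD i 0 ≤
      ∑ i ∈ (Finset.range N).filter (fun i => f i = j), a.getD i 0 := by
  classical
  have hni : i ∉ (Finset.range i).filter (fun i => f i = j) := by simp
  have he := Finset.sum_insert (f := fun i => a.getD i 0) hni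
  rw [add_comm, ← he]
  refine Finset.sum_le_sum_of_subset ?_
  intro x hx
  rw [Finset.mem_insert] at hx
  rw [Finset.mem_filter, Finset.mem_range]
  rcases hx with rfl | hx
  · exact ⟨hi, hfi⟩
  · rw [Finset.mem_filter, Finset.mem_range] at hx
    exact ⟨by omega, hx.2⟩

/-- The first slots of the items. -/
structure Start (a : List ℕ) (b B : ℕ) (s : ℕ → ℕ) : Prop where
  ex : ∀ i < a.length, ∃ j o, j < b ∧ s i = j * (10 * B + 3) + 1 + 10 * o ∧ o + a.getD i 0 ≤ B
  disj : ∀ i < a.length, ∀ i' < a.length, i ≠ i' →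
    s i + 10 * a.getD i 0 ≤ s i' ∨ s i' + 10 * a.getD i' 0 ≤ s i

theorem exists_start {a : List ℕ} {b B : ℕ} {f : ℕ → ℕ} (hf : ∀ i < a.length, f i < b)
    (hs : ∀ j < b, ∑ i ∈ (Finset.range a.length).filter (fun i => f i = j), a.getD i 0 ≤ B) :
    ∃ s, Start a b B s := by
  have h1 : ∀ i < a.length,
      ∑ i ∈ (Finset.range i).filter (fun i' => f i' = f i), a.getD i 0 + a.getD i 0 ≤ B :=
    fun i hi => (sum_step hi rfl).trans (hs _ (hf i hi))
  refine ⟨fun i => f i * (10 * B + 3) + 1 +
    10 * ∑ i ∈ (Finset.range i).filter (fun i' => f i' = f i), a.getD i 0, ?_, ?_⟩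
  · intro i hi
    exact ⟨_, _, hf i hi, rfl, h1 i hi⟩
  · have key : ∀ i < a.length, ∀ i' < a.length, f i < f i' →
        f i * (10 * B + 3) + 1 +
        10 * ∑ i ∈ (Finset.range i).filter (fun i' => f i' = f i), a.getD i 0 + 10 * a.getD i 0 ≤
        f i' * (10 * B + 3) + 1 +
        10 * ∑ i ∈ (Finset.range i').filter (fun i => f i = f i'), a.getD i 0 := by
      intro i hi i' hi' hlt
      have h2 := h1 i hi
      have h3 : (f i + 1) * (10 * B + 3) ≤ f i' * (10 * B + 3) := Nat.mul_le_mul_right _ hlt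
      have h4 : (f i + 1) * (10 * B + 3) = f i * (10 * B + 3) + (10 * B + 3) := by ring
      omega
    have key2 : ∀ i < a.length, ∀ i' < a.length, f i = f i' → i < i' →
        f i * (10 * B + 3) + 1 +
        10 * ∑ i ∈ (Finset.range i).filter (fun i' => f i' = f i), a.getD i 0 + 10 * a.getD i 0 ≤
        f i' * (10 * B + 3) + 1 +
        10 * ∑ i ∈ (Finset.range i').filter (fun i => f i = f i'), a.getD i 0 := by
      intro i hi i' hi' he hlt
      have h2 := sum_step (a := a) (f := f) (j := f i) hlt rfl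
      rw [← he]
      omega
    intro i hi i' hi' hne
    rcases lt_trichotomy (f i) (f i') with h | h | h
    · exact Or.inl (key i hi i' hi' h)
    · rcases lt_or_gt_of_ne hne with h3 | h3
      · exact Or.inl (key2 i hi i' hi' h h3)
      · exact Or.inr (key2 i' hi' i hi h.symm h3)
    · exact Or.inr (key i' hi' i hi h)

section

/-- the position in a copy -/
def Pl (s : ℕ → ℕ) (v : LV) : ℕ :=
  if v.1 = 1 then 1
  else if v.1 = 2 then 4 * v.2.1
  else 4 * (s v.2.1 + v.2.2) + (if v.2.2 = 0 then 3 else 2)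

/-- the position -/
def ps (b B : ℕ) (s : ℕ → ℕ) (v : V4) : ℤ :=
  if v.2.1 = 0 then (v.1 : ℤ)
  else 4 + (v.1 * (4 * (b * (10 * B + 3)) + 4) : ℕ) + (Pl s v.2 : ℤ)

/-- the page -/
def pp (B : ℕ) (v w : V4) : ℕ :=
  if v.2.1 = 0 then (if w.2.1 = 0 then 0 else min v.1 3)
  else if w.2.1 = 0 then min w.1 3
  else if v.2.1 = 1 ∨ w.2.1 = 1 then 3
  else if v.2.1 = 2 ∧ w.2.1 = 2 then 1 + (min v.2.2.1 w.2.2.1 % (10 * B + 3) + 1) % 2
  else 0

variable {a : List ℕ} {b B : ℕ} {s : ℕ → ℕ}

theorem Pl_z : Pl s z = 1 := by simp [Pl, z]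

theorem Pl_u {m : ℕ} : Pl s (u m) = 4 * m := by simp [Pl, u]

theorem Pl_x {i q : ℕ} : Pl s (x i q) = 4 * (s i + q) + (if q = 0 then 3 else 2) := by
  show (if (3 : ℕ) = 1 then _ else if (3 : ℕ) = 2 then _ else _) = _
  rw [if_neg (by norm_num), if_neg (by norm_num)]
  rfl

theorem ray_iff {v : LV} {c : ℕ} : ray b B v c = true ↔
    (v.1 = 2 ∧ (v.2.1 = 0 ∨ v.2.1 = b * (10 * B + 3) ∨ (isep B v.2.1 = true ∧ c ≠ 3) ∨ c = 1 ∨
      c = 2)) ∨ (v.1 = 3 ∧ (c = 0 ∨ c = 2 - v.2.2 % 2)) := by
  simp [ray, or_assoc]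

theorem ray_u_iff {m c : ℕ} : ray b B (u m) c = true ↔
    (m = 0 ∨ m = b * (10 * B + 3) ∨ (isep B m = true ∧ c ≠ 3) ∨ c = 1 ∨ c = 2) := by
  rw [ray_iff]
  constructor
  · rintro (h | h)
    · exact h.2
    · exact absurd h.1 (by simp [u])
  · exact fun h => Or.inl ⟨rfl, h⟩

theorem ray_x_iff {i q c : ℕ} : ray b B (x i q) c = true ↔ (c = 0 ∨ c = 2 - q % 2) := by
  rw [ray_iff]
  constructor
  · rintro (h | h)
    · exact absurd h.1 (by simp [x])
    · exact h.2
  · exact fun h => Or.inr ⟨rfl, h⟩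

theorem Start.bd (hs : Start a b B s) {i : ℕ} (hi : i < a.length) :
    1 ≤ s i ∧ s i + 10 * a.getD i 0 + 2 ≤ b * (10 * B + 3) := by
  obtain ⟨j, o, hj, h1, h2⟩ := hs.ex i hi
  have h3 : (j + 1) * (10 * B + 3) ≤ b * (10 * B + 3) := Nat.mul_le_mul_right _ hj
  have h4 : (j + 1) * (10 * B + 3) = j * (10 * B + 3) + (10 * B + 3) := by ring
  omega

theorem Start.mod (hs : Start a b B s) {i q : ℕ} (hi : i < a.length) (hq : q ≤ 10 * a.getD i 0) :
    ∃ o, (s i + q) % (10 * B + 3) = 1 + 10 * o + q ∧ 1 + 10 * o + q ≤ 10 * B + 1 := by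
  obtain ⟨j, o, hj, h1, h2⟩ := hs.ex i hi
  refine ⟨o, ?_, by omega⟩
  have : s i + q = (10 * B + 3) * j + (1 + 10 * o + q) := by rw [h1]; ring
  rw [this, Nat.mul_add_mod]
  exact Nat.mod_eq_of_lt (by omega)

/-- the shapes of the vertices of a copy -/
theorem M_cases {v : LV} (h : M a b B v) : v = z ∨ (∃ m ≤ b * (10 * B + 3), v = u m) ∨
    ∃ i q, i < a.length ∧ q ≤ 10 * a.getD i 0 ∧ v = x i q := by
  obtain ⟨k, i, j⟩ := v
  rcases h with h | ⟨h1, h2, h3⟩ | ⟨h1, h2, h3⟩
  · exact Or.inl h
  · dsimp only at h1 h2 h3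
    subst h1; subst h3
    exact Or.inr (Or.inl ⟨i, h2, rfl⟩)
  · dsimp only at h1 h2 h3
    subst h1
    exact Or.inr (Or.inr ⟨i, j, h2, h3, rfl⟩)

theorem Pl_lt (hs : Start a b B s) {v : LV} (h : M a b B v) :
    Pl s v < 4 * (b * (10 * B + 3)) + 4 := by
  rcases M_cases h with rfl | ⟨m, hm, rfl⟩ | ⟨i, q, hi, hq, rfl⟩
  · rw [Pl_z]; omega
  · rw [Pl_u]; omega
  · rw [Pl_x]
    have := hs.bd hi
    split_ifs <;> omega

theorem Pl_inj (hs : Start a b B s) (hpos : ∀ i < a.length, 1 ≤ a.getD i 0) {v w : LV}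
    (hv : M a b B v) (hw : M a b B w) (h : Pl s v = Pl s w) : v = w := by
  rcases M_cases hv with rfl | ⟨m, hm, rfl⟩ | ⟨i, q, hi, hq, rfl⟩ <;>
  rcases M_cases hw with rfl | ⟨m', hm', rfl⟩ | ⟨i', q', hi', hq', rfl⟩
  · rfl
  · rw [Pl_z, Pl_u] at h; omega
  · rw [Pl_z, Pl_x] at h
    split_ifs at h <;> omega
  · rw [Pl_z, Pl_u] at h; omega
  · rw [Pl_u, Pl_u] at h
    rw [u_inj]; omega
  · rw [Pl_u, Pl_x] at h
    split_ifs at h <;> omega
  · rw [Pl_x, Pl_z] at h
    split_ifs at h <;> omega
  · rw [Pl_x, Pl_u] at h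
    split_ifs at h <;> omega
  · rw [Pl_x, Pl_x] at h
    rw [x_inj]
    have p1 := hpos i hi
    have p2 := hpos i' hi'
    by_cases hii : i = i'
    · subst hii
      refine ⟨rfl, ?_⟩
      split_ifs at h <;> omega
    · exfalso
      rcases hs.disj i hi i' hi' hii with h1 | h1 <;> split_ifs at h <;> omega

theorem ps_hub {c : ℕ} : ps b B s (c, 0, 0, 0) = c := by simp [ps]

theorem ps_copy {κ : ℕ} {v : LV} (h : M a b B v) :
    ps b B s (κ, v) = 4 + (κ * (4 * (b * (10 * B + 3)) + 4) : ℕ) + (Pl s v : ℤ) := by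
  have := M_kind h
  have h0 : ¬ v.1 = 0 := by omega
  simp [ps, h0]

theorem copy_eq (hs : Start a b B s) {κ κ' : ℕ} {v w y : LV} (hv : M a b B v) (hw : M a b B w)
    (hy : M a b B y) (h1 : ps b B s (κ, v) < ps b B s (κ', w))
    (h2 : ps b B s (κ', w) < ps b B s (κ, y)) :
    κ = κ' ∧ Pl s v < Pl s w ∧ Pl s w < Pl s y := by
  rw [ps_copy hv, ps_copy hw] at h1
  rw [ps_copy hw, ps_copy hy] at h2
  have l1 := Pl_lt hs hv
  have l2 := Pl_lt hs hw
  have l3 := Pl_lt hs hy
  have hk : κ = κ' := by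
    rcases lt_trichotomy κ κ' with h | h | h
    · exfalso
      have h3 : (κ + 1) * (4 * (b * (10 * B + 3)) + 4) ≤ κ' * (4 * (b * (10 * B + 3)) + 4) :=
        Nat.mul_le_mul_right _ h
      have h4 : (κ + 1) * (4 * (b * (10 * B + 3)) + 4) =
        κ * (4 * (b * (10 * B + 3)) + 4) + (4 * (b * (10 * B + 3)) + 4) := by ring
      omega
    · exact h
    · exfalso
      have h3 : (κ' + 1) * (4 * (b * (10 * B + 3)) + 4) ≤ κ * (4 * (b * (10 * B + 3)) + 4) :=
        Nat.mul_le_mul_right _ h
      have h4 : (κ' + 1) * (4 * (b * (10 * B + 3)) + 4) =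
        κ' * (4 * (b * (10 * B + 3)) + 4) + (4 * (b * (10 * B + 3)) + 4) := by ring
      omega
  subst hk
  refine ⟨rfl, ?_, ?_⟩ <;> omega

/-- The kinds of edges. -/
inductive Kd (a : List ℕ) (b B : ℕ) : V4 → V4 → ℕ → Prop
  | H (c κ : ℕ) (w : LV) (hc : c < 4) (hw : M a b B w) (hr : ray b B w c = true) :
      Kd a b B (c, 0, 0, 0) (κ, w) c
  | Z (κ : ℕ) (v w : LV) (hv : M a b B v) (hw : M a b B w) (hz : v = z ∨ w = z) :
      Kd a b B (κ, v) (κ, w) 3
  | F (κ m : ℕ) (hm : m < b * (10 * B + 3)) :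
      Kd a b B (κ, u m) (κ, u (m + 1)) (1 + (m % (10 * B + 3) + 1) % 2)
  | I (κ i q : ℕ) (hi : i < a.length) (hq : q < 10 * a.getD i 0) :
      Kd a b B (κ, x i q) (κ, x i (q + 1)) 0

theorem kd {v w : V4} (hv : v ∈ vl a b B) (hw : w ∈ vl a b B)
    (hadj : Adj b B v w) (hlt : ps b B s v < ps b B s w) : Kd a b B v w (pp B v w) := by
  obtain ⟨κ, v⟩ := v
  obtain ⟨κ', w⟩ := w
  rcases mem_vl.1 hv with ⟨h1, h2⟩ | ⟨h1, h2⟩
  · dsimp only at h1 h2
    subst h2
    rcases mem_vl.1 hw with ⟨h3, h4⟩ | ⟨h3, h4⟩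
    · dsimp only at h3 h4
      subst h4
      exact absurd hadj adj_hh
    · dsimp only at h3 h4
      have hk := M_kind h4
      have h0 : ¬ w.1 = 0 := by omega
      have hp : pp B (κ, 0, 0, 0) (κ', w) = κ := by
        simp [pp, h0]
        omega
      rw [hp]
      exact Kd.H κ κ' w h1 h4 ((adj_hub h0).1 hadj.symm)
  · dsimp only at h1 h2
    have hk := M_kind h2
    have h0 : ¬ v.1 = 0 := by omega
    rcases mem_vl.1 hw with ⟨h3, h4⟩ | ⟨h3, h4⟩
    · exfalso
      dsimp only at h3 h4
      subst h4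
      rw [ps_copy h2, ps_hub] at hlt
      have : (κ' : ℤ) < 4 := by omega
      omega
    · dsimp only at h3 h4
      have hk' := M_kind h4
      have h0' : ¬ w.1 = 0 := by omega
      by_cases hvz : v = z
      · subst hvz
        by_cases hwz : w = z
        · subst hwz
          simp [Adj, ad, z] at hadj
        · have hκ := (adj_z h4 hwz).1 hadj
          subst hκ
          have hp : pp B (κ, z) (κ, w) = 3 := by simp [pp, h0', z]
          rw [hp]
          exact Kd.Z κ z w h2 h4 (Or.inl rfl)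
      · by_cases hwz : w = z
        · subst hwz
          have hκ := (adj_z h2 hvz).1 hadj.symm
          subst hκ
          have hp : pp B (κ', v) (κ', z) = 3 := by simp [pp, h0, z]
          rw [hp]
          exact Kd.Z κ' v z h2 h4 (Or.inr rfl)
        · obtain ⟨hκ, hE⟩ := (adj_nz h2 h4 hvz hwz).1 hadj
          subst hκ
          rw [ps_copy h2, ps_copy h4] at hlt
          have hlt' : Pl s v < Pl s w := by omega
          rcases M_cases h2 with rfl | ⟨m, hm, rfl⟩ | ⟨i, q, hi, hq, rfl⟩
          · exact absurd rfl hvz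
          · rcases M_cases h4 with rfl | ⟨m', hm', rfl⟩ | ⟨i', q', hi', hq', rfl⟩
            · exact absurd rfl hwz
            · rw [Pl_u, Pl_u] at hlt'
              have hmm : m' = m + 1 := by
                simp [NZ, u] at hE
                omega
              subst hmm
              have hp : pp B (κ, u m) (κ, u (m + 1)) = 1 + (m % (10 * B + 3) + 1) % 2 := by
                simp [pp, u]
              rw [hp]
              exact Kd.F κ m hm'
            · simp [NZ, u, x] at hE
          · rcases M_cases h4 with rfl | ⟨m', hm', rfl⟩ | ⟨i', q', hi', hq', rfl⟩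
            · exact absurd rfl hwz
            · simp [NZ, u, x] at hE
            · simp [NZ, x] at hE
              obtain ⟨rfl, hE⟩ := hE
              have hqq : q' = q + 1 := by
                rw [Pl_x, Pl_x] at hlt'
                rcases hE with hE | hE
                · exact hE
                · exfalso
                  subst hE
                  split_ifs at hlt' <;> omega
              subst hqq
              have hp : pp B (κ, x i q) (κ, x i (q + 1)) = 0 := by simp [pp, x]
              rw [hp]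
              exact Kd.I κ i q hi (by omega)

theorem Kd.left {v w : V4} {c : ℕ} (h : Kd a b B v w c) :
    (∃ c' < 4, v = (c', 0, 0, 0)) ∨ ∃ κ v', v = (κ, v') ∧ M a b B v' := by
  cases h with
  | H c κ w hc hw hr => exact Or.inl ⟨_, hc, rfl⟩
  | Z κ v w hv hw hz => exact Or.inr ⟨_, _, rfl, hv⟩
  | F κ m hm => exact Or.inr ⟨_, _, rfl, M_u hm.le⟩
  | I κ i q hi hq => exact Or.inr ⟨_, _, rfl, M_x hi hq.le⟩

/-- **Completeness.** -/
theorem complete (hpos : ∀ i < a.length, 1 ≤ a.getD i 0)
    (h : ∃ f : ℕ → ℕ, (∀ i < a.length, f i < b) ∧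
      ∀ j < b, ∑ i ∈ (Finset.range a.length).filter (fun i => f i = j), a.getD i 0 ≤ B) :
    HasBookEmbedding (gr a b B).graph 4 := by
  obtain ⟨f, hf1, hf2⟩ := h
  obtain ⟨s, hs⟩ := exists_start hf1 hf2
  refine emb_iff.2 ⟨ps b B s, pp B, ?_, ?_, ?_, ?_⟩
  · intro v w hv hw hvw
    obtain ⟨κ, v⟩ := v
    obtain ⟨κ', w⟩ := w
    rcases mem_vl.1 hv with ⟨h1, h2⟩ | ⟨h1, h2⟩
    · dsimp only at h1 h2
      subst h2
      rw [ps_hub] at hvw
      rcases mem_vl.1 hw with ⟨h3, h4⟩ | ⟨h3, h4⟩
      · dsimp only at h3 h4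
        subst h4
        rw [ps_hub] at hvw
        have : κ = κ' := by omega
        rw [this]
      · exfalso
        dsimp only at h3 h4
        rw [ps_copy h4] at hvw
        omega
    · dsimp only at h1 h2
      rcases mem_vl.1 hw with ⟨h3, h4⟩ | ⟨h3, h4⟩
      · exfalso
        dsimp only at h3 h4
        subst h4
        rw [ps_copy h2, ps_hub] at hvw
        omega
      · dsimp only at h3 h4
        rw [ps_copy h2, ps_copy h4] at hvw
        have l1 := Pl_lt hs h2
        have l2 := Pl_lt hs h4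
        have hk : κ = κ' := by
          rcases lt_trichotomy κ κ' with h | h | h
          · exfalso
            have h3 : (κ + 1) * (4 * (b * (10 * B + 3)) + 4) ≤ κ' * (4 * (b * (10 * B + 3)) + 4) :=
              Nat.mul_le_mul_right _ h
            have h4 : (κ + 1) * (4 * (b * (10 * B + 3)) + 4) =
              κ * (4 * (b * (10 * B + 3)) + 4) + (4 * (b * (10 * B + 3)) + 4) := by ring
            omega
          · exact h
          · exfalso
            have h3 : (κ' + 1) * (4 * (b * (10 * B + 3)) + 4) ≤ κ * (4 * (b * (10 * B + 3)) + 4) :=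
              Nat.mul_le_mul_right _ h
            have h4 : (κ' + 1) * (4 * (b * (10 * B + 3)) + 4) =
              κ' * (4 * (b * (10 * B + 3)) + 4) + (4 * (b * (10 * B + 3)) + 4) := by ring
            omega
        subst hk
        rw [Pl_inj hs hpos h2 h4 (by omega)]
  · intro v w
    unfold pp
    split_ifs <;> omega
  · intro v w
    unfold pp
    split_ifs <;> first | omega | (rw [min_comm])
  · intro v w x' y hv hw hx hy hadj hadj' l1 l2 l3 hpg
    have k1 := kd hv hw hadj (l1.trans l2)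
    have k2 := kd hx hy hadj' (l2.trans l3)
    rw [← hpg] at k2
    generalize pp B v w = c at k1 k2
    clear hpg
    cases k1 with
    | H c κ w hc hw' hr =>
      rw [ps_hub] at l1
      generalize hc' : c = c' at k2
      cases k2 with
      | H c'' κ' w' hc'' hw'' hr' =>
        rw [ps_hub] at l1
        omega
      | Z κ' v' w' hv' hw'' hz =>
        subst hc'
        obtain ⟨rfl, e1, e2⟩ := copy_eq hs hv' hw' hw'' l2 l3
        rcases M_cases hw' with rfl | ⟨m, hm, rfl⟩ | ⟨i, q, hi, hq, rfl⟩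
        · simp [ray, z] at hr
        · have h1 := Pl_lt hs hw''
          have h2 : m = 0 ∨ m = b * (10 * B + 3) := by
            rw [ray_u_iff] at hr
            omega
          rcases h2 with rfl | rfl
          · rw [Pl_u] at e1
            omega
          · rw [Pl_u] at e2
            rcases M_cases hw'' with rfl | ⟨m', hm', rfl⟩ | ⟨i', q', hi', hq', rfl⟩
            · rw [Pl_z] at e2
              rw [Pl_u] at e1
              omega
            · rw [Pl_u] at e2
              omega
            · rw [Pl_x] at e2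
              have := hs.bd hi'
              split_ifs at e2 <;> omega
        · rw [ray_x_iff] at hr
          omega
      | F κ' m hm =>
        subst hc'
        obtain ⟨rfl, e1, e2⟩ := copy_eq hs (M_u hm.le) hw' (M_u hm) l2 l3
        rw [Pl_u] at e1 e2
        rcases M_cases hw' with rfl | ⟨m', hm', rfl⟩ | ⟨i, q, hi, hq, rfl⟩
        · simp [ray, z] at hr
        · rw [Pl_u] at e1 e2
          omega
        · rw [Pl_x] at e1 e2
          have hk : s i + q = m := by
            split_ifs at e1 e2 <;> omega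
          obtain ⟨o, h1, h2⟩ := hs.mod hi hq
          rw [hk] at h1
          have h3 : ray b B (x i q) (1 + (m % (10 * B + 3) + 1) % 2) = true := hr
          rw [h1, ray_x_iff] at h3
          omega
      | I κ' i q hi hq =>
        subst hc'
        obtain ⟨rfl, e1, e2⟩ := copy_eq hs (M_x hi hq.le) hw' (M_x hi hq) l2 l3
        rw [Pl_x] at e1 e2
        rw [if_neg (by omega)] at e2
        have hbd := hs.bd hi
        rcases M_cases hw' with rfl | ⟨m', hm', rfl⟩ | ⟨i', q', hi', hq', rfl⟩
        · simp [ray, z] at hr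
        · rw [Pl_u] at e1 e2
          have hk : m' = s i + (q + 1) := by
            split_ifs at e1 <;> omega
          subst hk
          obtain ⟨o, h1, h2⟩ := hs.mod hi (show q + 1 ≤ _ from hq)
          have h3 : isep B (s i + (q + 1)) = false := by
            simp [isep, h1]
            omega
          rw [ray_u_iff, h3] at hr
          simp at hr
          omega
        · rw [Pl_x] at e1 e2
          have p1 := hpos i hi
          have p2 := hpos i' hi'
          by_cases hii : i = i'
          · subst hii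
            split_ifs at e1 e2 <;> omega
          · rcases hs.disj i hi i' hi' hii with h1 | h1 <;> split_ifs at e1 e2 <;> omega
    | Z κ v w hv' hw' hz =>
      rcases k2.left with ⟨c', hc', rfl⟩ | ⟨κ', x'', rfl, hx''⟩
      · rw [ps_hub, ps_copy hv'] at l1
        omega
      · obtain ⟨rfl, e1, e2⟩ := copy_eq hs hv' hx'' hw' l1 l2
        generalize hc' : 3 = c' at k2
        generalize hX : ((κ, x'') : V4) = X at k2
        cases k2 with
        | H c'' κ' w' hc'' hw'' hr' =>
          rw [Prod.mk.injEq] at hX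
          rw [hX.2] at hx''
          have := M_kind hx''
          simp at this
        | Z κ' v' w' hv'' hw'' hz' =>
          rw [Prod.mk.injEq] at hX
          obtain ⟨rfl, rfl⟩ := hX
          obtain ⟨-, e3, e4⟩ := copy_eq hs hx'' hw' hw'' l2 l3
          rcases hz with rfl | rfl <;> rcases hz' with rfl | rfl <;> omega
        | F κ' m hm => omega
        | I κ' i q hi hq => omega
    | F κ m hm =>
      rcases k2.left with ⟨c', hc', rfl⟩ | ⟨κ', x'', rfl, hx''⟩
      · rw [ps_hub, ps_copy (a := a) (M_u hm.le)] at l1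
        omega
      · obtain ⟨rfl, e1, e2⟩ := copy_eq hs (M_u hm.le) hx'' (M_u hm) l1 l2
        generalize hc' : 1 + (m % (10 * B + 3) + 1) % 2 = c' at k2
        generalize hX : ((κ, x'') : V4) = X at k2
        cases k2 with
        | H c'' κ' w' hc'' hw'' hr' =>
          rw [Prod.mk.injEq] at hX
          rw [hX.2] at hx''
          have := M_kind hx''
          simp at this
        | Z κ' v' w' hv'' hw'' hz' => omega
        | F κ' m' hm' =>
          rw [Prod.mk.injEq] at hX
          obtain ⟨rfl, rfl⟩ := hX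
          rw [Pl_u, Pl_u] at e1 e2
          omega
        | I κ' i q hi hq => omega
    | I κ i q hi hq =>
      rcases k2.left with ⟨c', hc', rfl⟩ | ⟨κ', x'', rfl, hx''⟩
      · rw [ps_hub, ps_copy (M_x hi hq.le)] at l1
        omega
      · obtain ⟨rfl, e1, e2⟩ := copy_eq hs (M_x hi hq.le) hx'' (M_x hi hq) l1 l2
        generalize hc' : 0 = c' at k2
        generalize hX : ((κ, x'') : V4) = X at k2
        cases k2 with
        | H c'' κ' w' hc'' hw'' hr' =>
          rw [Prod.mk.injEq] at hX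
          rw [hX.2] at hx''
          have := M_kind hx''
          simp at this
        | Z κ' v' w' hv'' hw'' hz' => omega
        | F κ' m' hm' => omega
        | I κ' i' q' hi' hq' =>
          rw [Prod.mk.injEq] at hX
          obtain ⟨rfl, rfl⟩ := hX
          obtain ⟨-, e3, e4⟩ := copy_eq hs hx'' (M_x hi hq) (M_x hi' hq') l2 l3
          rw [Pl_x, Pl_x] at e1 e2 e3 e4
          split_ifs at e1 e2 e3 e4 <;> omega

end

end Pool.Agent.TH656.Bt
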