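import Pool.Agent.TH656.Bt.Local

/-!
# Book embeddings: counting in one copy
-/

set_option autoImplicit false

namespace Pool.Agent.TH656.Bt

section

variable {a : List ℕ} {b B : ℕ} {P : LV → ℤ} {pg : LV → LV → ℕ}

theorem Loc.clean_left (h : Loc a b B P pg) {m : ℕ} (hm : m ≤ b * (10 * B + 3))
    (hc : Clean a b B P m) {k : ℕ} (hk : k < m) : P (u k) < P (u m) := by
  induction k with
  | zero =>
    by_cases h1 : m = b * (10 * B + 3)
    · rw [h1]
      exact h.or
    · exact (h.between (M_u hm) u_ne_z (by rw [Ne, u_inj]; omega) (by rw [Ne, u_inj]; exact h1)).1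
  | succ k ih =>
    have h1 := ih (by omega)
    have h2 := h.ne (M_u (m := k + 1) (by omega)) (M_u hm) (by rw [Ne, u_inj]; omega)
    by_contra h3
    exact hc _ _ (M_u (by omega)) (M_u (by omega)) NZ_u (Or.inl ⟨h1, by omega⟩)

theorem Loc.clean_right (h : Loc a b B P pg) {m : ℕ} (hc : Clean a b B P m) :
    ∀ d k, k + d = b * (10 * B + 3) → m < k → P (u m) < P (u k) := by
  intro d
  induction d with
  | zero =>
    intro k hk hmk
    have e : k = b * (10 * B + 3) := by omega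
    rw [e]
    by_cases h1 : m = 0
    · rw [h1]
      exact h.or
    · exact (h.between (M_u (by omega)) u_ne_z (by rw [Ne, u_inj]; exact h1)
        (by rw [Ne, u_inj]; omega)).2
  | succ d ih =>
    intro k hk hmk
    have h1 := ih (k + 1) (by omega) (by omega)
    have h2 := h.ne (M_u (m := k) (by omega)) (M_u (m := m) (by omega)) (by rw [Ne, u_inj]; omega)
    by_contra h3
    exact hc _ _ (M_u (by omega)) (M_u (by omega)) NZ_u (Or.inl ⟨by omega, h1⟩)

theorem Loc.clean_zero (h : Loc a b B P pg) : Clean a b B P 0 := by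
  intro v y hv hy hE hbt
  have := h.be v y (u 0) hv hy hE (M_u (Nat.zero_le _)) hbt
  rw [ray_w0] at this
  exact absurd this (by decide)

theorem Loc.clean_N (h : Loc a b B P pg) : Clean a b B P (b * (10 * B + 3)) := by
  intro v y hv hy hE hbt
  have := h.be v y _ hv hy hE (M_u le_rfl) hbt
  rw [ray_wN] at this
  exact absurd this (by decide)

theorem Loc.side (h : Loc a b B P pg) {m : ℕ} (hm : m ≤ b * (10 * B + 3))
    (hc : Clean a b B P m) {i : ℕ} (hi : i < a.length) : ∀ q ≤ 10 * a.getD i 0,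
    (P (x i q) < P (u m) ↔ P (x i 0) < P (u m)) := by
  intro q
  induction q with
  | zero => intro _; rfl
  | succ q ih =>
    intro hq
    rw [← ih (by omega)]
    have h1 := h.ne (M_x hi (by omega : q ≤ 10 * a.getD i 0)) (M_u hm) x_ne_u
    have h2 := h.ne (M_x hi hq) (M_u hm) x_ne_u
    have h3 := hc _ _ (M_x hi (by omega : q ≤ 10 * a.getD i 0)) (M_x hi hq) NZ_x
    unfold BT at h3
    omega

/-- the page of an edge of an item -/
theorem Loc.page_x (h : Loc a b B P pg) {i q m : ℕ} (hi : i < a.length)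
    (hq : q < 10 * a.getD i 0) (hm : m ≤ b * (10 * B + 3))
    (hbt : BT P (x i q) (u m) (x i (q + 1))) :
    pg (x i q) (x i (q + 1)) = 0 ∨ pg (x i q) (x i (q + 1)) = 3 :=
  ray_u (h.lt _ _) (h.be _ _ _ (M_x hi hq.le) (M_x hi hq) NZ_x (M_u hm) hbt)

theorem Loc.e_inj (h : Loc a b B P pg) {i q i' q' m : ℕ} (hi : i < a.length)
    (hq : q < 10 * a.getD i 0) (hi' : i' < a.length) (hq' : q' < 10 * a.getD i' 0)
    (hbt : BT P (x i q) (u m) (x i (q + 1)))
    (hbt' : BT P (x i' q') (u m) (x i' (q' + 1)))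
    (hp : pg (x i q) (x i (q + 1)) = 0) (hp' : pg (x i' q') (x i' (q' + 1)) = 0) :
    i = i' ∧ q = q' := by
  have M1 := M_x (b := b) (B := B) hi hq.le
  have M2 := M_x (b := b) (B := B) hi (show q + 1 ≤ _ from hq)
  have M1' := M_x (b := b) (B := B) hi' hq'.le
  have M2' := M_x (b := b) (B := B) hi' (show q' + 1 ≤ _ from hq')
  have k1 : ¬ BT P (x i q) (x i' q') (x i (q + 1)) := fun hc =>
    (ray_x (h.be _ _ _ M1 M2 NZ_x M1' hc)).1 hp
  have k2 : ¬ BT P (x i q) (x i' (q' + 1)) (x i (q + 1)) := fun hc =>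
    (ray_x (h.be _ _ _ M1 M2 NZ_x M2' hc)).1 hp
  have k3 : ¬ BT P (x i' q') (x i q) (x i' (q' + 1)) := fun hc =>
    (ray_x (h.be _ _ _ M1' M2' NZ_x M1 hc)).1 hp'
  have k4 : ¬ BT P (x i' q') (x i (q + 1)) (x i' (q' + 1)) := fun hc =>
    (ray_x (h.be _ _ _ M1' M2' NZ_x M2 hc)).1 hp'
  unfold BT at hbt hbt' k1 k2 k3 k4
  have key : (P (x i q) = P (x i' q') ∧ P (x i (q + 1)) = P (x i' (q' + 1))) ∨
      (P (x i q) = P (x i' (q' + 1)) ∧ P (x i (q + 1)) = P (x i' q')) := by omega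
  rcases key with ⟨h1, -⟩ | ⟨h1, h2⟩
  · have h3 := h.inj _ _ M1 M1' h1
    rwa [x_inj] at h3
  · have h3 := h.inj _ _ M1 M2' h1
    have h4 := h.inj _ _ M2 M1' h2
    rw [x_inj] at h3 h4
    omega

/-- The edges of the items on page `3`. -/
theorem Loc.zp (h : Loc a b B P pg) (hb : 1 ≤ b) {i q : ℕ} (hi : i < a.length)
    (hq : q < 10 * a.getD i 0) (hp : pg (x i q) (x i (q + 1)) = 3) :
    ∃ r m, (r = q ∨ r = q + 1) ∧ m ≤ b * (10 * B + 3) ∧ BT P z (u m) (x i r) ∧
      (∀ m' ≤ b * (10 * B + 3), ¬ BT P z (u m') (u m)) ∧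
      (∀ w, M a b B w → ¬ BT P (u m) w (x i r)) := by
  have M1 := M_x (b := b) (B := B) hi hq.le
  have M2 := M_x (b := b) (B := B) hi (show q + 1 ≤ _ from hq)
  obtain ⟨m, hm, hbt⟩ := h.gap hb hi hq.le hi (show q + 1 ≤ _ from hq) (by omega)
  have hz := h.C1' hb M1 M2 NZ_x hp
  have n1 := h.ne M1 M_z x_ne_z
  have n2 := h.ne M2 M_z x_ne_z
  -- the general statement
  have key : ∀ e1 e2 t, M a b B (x i e1) → M a b B (x i e2) → NZ (x i e1) (x i e2) →
      pg (x i e1) (x i e2) = 3 → BT P (x i e1) (u m) (x i e2) → BT P z (x i e1) (x i e2) →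
      t = e2 → (∀ m' ≤ b * (10 * B + 3), ¬ BT P z (u m') (u m)) ∧
      (∀ w, M a b B w → ¬ BT P (u m) w (x i e2)) := by
    intro e1 e2 _ Me1 Me2 hE hp hbt hbz _
    have hpm := h.C2 hb Me1 Me2 hE hp (M_u hm) hbt
    have b1 : BT P z (x i e1) (u m) := by
      unfold BT at hbt hbz ⊢
      omega
    have r1 := ray_x (h.bz _ _ (M_u hm) u_ne_z Me1 b1)
    refine ⟨?_, ?_⟩
    · intro m' hm' hc
      have r2 := ray_u (h.lt _ _) (h.bz _ _ (M_u hm) u_ne_z (M_u hm') hc)
      omega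
    · intro w hw hc
      have b2 : BT P (x i e1) w (x i e2) := by
        unfold BT at hbt hbz hc ⊢
        omega
      have hpw := h.C2 hb Me1 Me2 hE hp hw b2
      have b3 : BT P z (x i e1) w := by
        unfold BT at hbt hbz hc ⊢
        omega
      have b4 : BT P z (u m) w := by
        unfold BT at hbt hbz hc ⊢
        omega
      have r3 := ray_x (h.bz _ _ hw hpw.1 Me1 b3)
      have r4 := ray_u (h.lt _ _) (h.bz _ _ hw hpw.1 (M_u hm) b4)
      omega
  by_cases hc : BT P z (x i q) (x i (q + 1))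
  · obtain ⟨k1, k2⟩ := key q (q + 1) _ M1 M2 NZ_x hp hbt hc rfl
    refine ⟨q + 1, m, Or.inr rfl, hm, ?_, k1, k2⟩
    unfold BT at hbt hc ⊢
    omega
  · have hc' : BT P z (x i (q + 1)) (x i q) := by
      unfold BT at hbt hc hz ⊢
      omega
    obtain ⟨k1, k2⟩ := key (q + 1) q _ M2 M1 NZ_x.symm (by rw [h.sym, hp]) hbt.symm hc' rfl
    refine ⟨q, m, Or.inl rfl, hm, ?_, k1, k2⟩
    unfold BT at hbt hc' ⊢
    omega

/-- Few edges of items on page `3` are on one side of `z`. -/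
theorem Loc.few (h : Loc a b B P pg) (hb : 1 ≤ b) (T : Finset (Σ _ : ℕ, ℕ))
    (hT : ∀ p ∈ T, p.1 < a.length ∧ p.2 < 10 * a.getD p.1 0 ∧
      pg (x p.1 p.2) (x p.1 (p.2 + 1)) = 3)
    (hside : (∀ p ∈ T, P z < P (x p.1 p.2)) ∨ (∀ p ∈ T, P (x p.1 p.2) < P z)) : T.card ≤ 2 := by
  classical
  rcases T.eq_empty_or_nonempty with rfl | ⟨p0, hp0⟩
  · simp
  obtain ⟨r0, m0, hr0, hm0, hb0, hc0, hd0⟩ := h.zp hb (hT p0 hp0).1 (hT p0 hp0).2.1 (hT p0 hp0).2.2
  have hsub : T ⊆ {⟨p0.1, r0⟩, ⟨p0.1, r0 - 1⟩} := by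
    intro p hp
    obtain ⟨h1, h2, h3⟩ := hT p hp
    obtain ⟨g1, g2, g3⟩ := hT p0 hp0
    obtain ⟨r, m, hr, hm, hb1, hc1, hd1⟩ := h.zp hb h1 h2 h3
    have hz := h.C1' hb (M_x h1 h2.le) (M_x h1 (show p.2 + 1 ≤ _ from h2)) NZ_x h3
    have hz0 := h.C1' hb (M_x g1 g2.le) (M_x g1 (show p0.2 + 1 ≤ _ from g2)) NZ_x g3
    have Mr : M a b B (x p.1 r) := M_x h1 (by omega)
    have Mr0 : M a b B (x p0.1 r0) := M_x g1 (by omega)
    have e1 := hc1 m0 hm0
    have e2 := hc0 m hm
    have nz1 := h.ne (M_x h1 (show p.2 + 1 ≤ _ from h2)) M_z x_ne_z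
    have nz2 := h.ne (M_x g1 (show p0.2 + 1 ≤ _ from g2)) M_z x_ne_z
    have hs : (P z < P (x p.1 r) ∧ P z < P (x p0.1 r0)) ∨
        (P (x p.1 r) < P z ∧ P (x p0.1 r0) < P z) := by
      rcases hside with hside | hside
      · left
        have s1 := hside p hp
        have s2 := hside p0 hp0
        unfold BT at hz hz0
        constructor
        · rcases hr with rfl | rfl
          · exact s1
          · omega
        · rcases hr0 with rfl | rfl
          · exact s2
          · omega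
      · right
        have s1 := hside p hp
        have s2 := hside p0 hp0
        unfold BT at hz hz0
        constructor
        · rcases hr with rfl | rfl
          · exact s1
          · omega
        · rcases hr0 with rfl | rfl
          · exact s2
          · omega
    have hmm : P (u m) = P (u m0) := by
      unfold BT at e1 e2 hb0 hb1
      omega
    have e3 := hd1 _ Mr0
    have e4 := hd0 _ Mr
    have hrr : P (x p.1 r) = P (x p0.1 r0) := by
      unfold BT at e3 e4 hb0 hb1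
      omega
    have e5 := h.inj _ _ Mr Mr0 hrr
    rw [x_inj] at e5
    obtain ⟨p1, p2⟩ := p
    dsimp only at *
    rw [Finset.mem_insert, Finset.mem_singleton]
    obtain ⟨rfl, rfl⟩ := e5
    rcases hr with rfl | rfl
    · exact Or.inl rfl
    · exact Or.inr rfl
  exact (Finset.card_le_card hsub).trans Finset.card_le_two

/-- **A packing from one copy.** -/
theorem Loc.pack (h : Loc a b B P pg) (hb : 1 ≤ b) :
    ∃ f : ℕ → ℕ, (∀ i < a.length, f i < b) ∧
      ∀ j < b, ∑ i ∈ (Finset.range a.length).filter (fun i => f i = j), a.getD i 0 ≤ B := by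
  classical
  -- the clean separators
  have hex : ∀ j, ∃ m, m ≤ b * (10 * B + 3) ∧ j * (10 * B + 3) ≤ m + 1 ∧
      (j ≤ b → m ≤ j * (10 * B + 3) + 1) ∧ (j ≤ b → Clean a b B P m) ∧ (j = 0 → m = 0) ∧
      (j = b → m = b * (10 * B + 3)) ∨ b < j := by
    intro j
    rcases Nat.eq_zero_or_pos j with rfl | hj
    · exact ⟨0, Or.inl ⟨by omega, by omega, by omega, fun _ => h.clean_zero, fun _ => rfl,
        by omega⟩⟩
    rcases lt_trichotomy j b with hjb | rfl | hjb
    · obtain ⟨m, h1, h2, h3⟩ := h.clean_or hb hj hjb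
      have h4 : (j + 1) * (10 * B + 3) ≤ b * (10 * B + 3) := Nat.mul_le_mul_right _ hjb
      have h5 : (j + 1) * (10 * B + 3) = j * (10 * B + 3) + (10 * B + 3) := by ring
      exact ⟨m, Or.inl ⟨by omega, by omega, fun _ => h2, fun _ => h3, by omega, by omega⟩⟩
    · exact ⟨j * (10 * B + 3), Or.inl ⟨le_rfl, by omega, by omega, fun _ => h.clean_N, by omega,
        fun _ => rfl⟩⟩
    · exact ⟨0, Or.inr hjb⟩
  choose c hc using hex
  have hc' : ∀ j ≤ b, c j ≤ b * (10 * B + 3) ∧ j * (10 * B + 3) ≤ c j + 1 ∧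
      c j ≤ j * (10 * B + 3) + 1 ∧ Clean a b B P (c j) ∧ (j = 0 → c j = 0) ∧
      (j = b → c j = b * (10 * B + 3)) := by
    intro j hj
    rcases hc j with h1 | h1
    · exact ⟨h1.1, h1.2.1, h1.2.2.1 hj, h1.2.2.2.1 hj, h1.2.2.2.2.1, h1.2.2.2.2.2⟩
    · omega
  -- the bins
  have hbin : ∀ i, ∃ j, i < a.length → j < b ∧ P (u (c j)) < P (x i 0) ∧
      P (x i 0) < P (u (c (j + 1))) := by
    intro i
    by_cases hi : i < a.length
    · have M0 := M_x (b := b) (B := B) hi (Nat.zero_le _)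
      have hbt := h.between M0 x_ne_z x_ne_u x_ne_u
      have hex : ∃ j, P (x i 0) < P (u (c j)) ∧ j ≤ b := ⟨b, by
        rw [(hc' b le_rfl).2.2.2.2.2 rfl]
        exact hbt.2, le_rfl⟩
      set k := Nat.find hex with hk
      have hk1 := Nat.find_spec hex
      rw [← hk] at hk1
      have hk0 : k ≠ 0 := by
        intro h0
        rw [h0, (hc' 0 (Nat.zero_le _)).2.2.2.2.1 rfl] at hk1
        omega
      obtain ⟨m, hm⟩ := Nat.exists_eq_succ_of_ne_zero hk0
      have hmin := Nat.find_min hex (m := m) (by omega)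
      rw [hm] at hk1
      have h2 : P (x i 0) ≠ P (u (c m)) := h.ne M0 (M_u (hc' m (by omega)).1) x_ne_u
      refine ⟨m, fun _ => ⟨by omega, ?_, hk1.1⟩⟩
      by_contra h3
      exact hmin ⟨by omega, by omega⟩
    · exact ⟨0, fun h' => absurd h' hi⟩
  choose f hf using hbin
  refine ⟨f, fun i hi => (hf i hi).1, ?_⟩
  intro j hj
  have cj := hc' j hj.le
  have cj' := hc' (j + 1) hj
  set T : Finset (Σ _ : ℕ, ℕ) := ((Finset.range a.length).filter (fun i => f i = j)).sigma
    (fun i => Finset.range (10 * a.getD i 0)) with hT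
  have hcard : T.card = 10 * ∑ i ∈ (Finset.range a.length).filter (fun i => f i = j),
      a.getD i 0 := by
    rw [hT, Finset.card_sigma, Finset.mul_sum]
    simp
  have hmem : ∀ p ∈ T, p.1 < a.length ∧ p.2 < 10 * a.getD p.1 0 ∧ f p.1 = j := by
    intro p hp
    rw [hT, Finset.mem_sigma, Finset.mem_filter, Finset.mem_range, Finset.mem_range] at hp
    exact ⟨hp.1.1, hp.2, hp.1.2⟩
  -- the frame vertex below an edge
  have hov : ∀ p : Σ _ : ℕ, ℕ, ∃ m, p ∈ T → c j < m ∧ m < c (j + 1) ∧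
      BT P (x p.1 p.2) (u m) (x p.1 (p.2 + 1)) := by
    intro p
    by_cases hp : p ∈ T
    · obtain ⟨h1, h2, h3⟩ := hmem p hp
      obtain ⟨m, hm, hbt⟩ := h.gap hb h1 h2.le h1 (show p.2 + 1 ≤ _ from h2) (by omega)
      have hfi := hf p.1 h1
      rw [h3] at hfi
      have s1 := h.side cj.1 cj.2.2.2.1 h1 p.2 h2.le
      have s2 := h.side cj.1 cj.2.2.2.1 h1 (p.2 + 1) h2
      have s3 := h.side cj'.1 cj'.2.2.2.1 h1 p.2 h2.le
      have s4 := h.side cj'.1 cj'.2.2.2.1 h1 (p.2 + 1) h2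
      have n1 := h.ne (M_x h1 h2.le) (M_u cj.1) x_ne_u
      have n2 := h.ne (M_x h1 (show p.2 + 1 ≤ _ from h2)) (M_u cj.1) x_ne_u
      have hpm : P (u (c j)) < P (u m) ∧ P (u m) < P (u (c (j + 1))) := by
        unfold BT at hbt
        omega
      refine ⟨m, fun _ => ⟨?_, ?_, hbt⟩⟩
      · by_contra hcon
        rcases Nat.lt_or_ge m (c j) with h4 | h4
        · have := h.clean_left cj.1 cj.2.2.2.1 h4
          omega
        · have : m = c j := by omega
          rw [this] at hpm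
          omega
      · by_contra hcon
        rcases Nat.lt_or_ge (c (j + 1)) m with h4 | h4
        · have := h.clean_right cj'.2.2.2.1 (b * (10 * B + 3) - m) m (by omega) h4
          omega
        · have : m = c (j + 1) := by omega
          rw [this] at hpm
          omega
    · exact ⟨0, fun h' => absurd h' hp⟩
  choose g hg using hov
  set T0 := T.filter (fun p => pg (x p.1 p.2) (x p.1 (p.2 + 1)) = 0) with hT0
  set TR := T.filter (fun p => pg (x p.1 p.2) (x p.1 (p.2 + 1)) = 3 ∧ P z < P (x p.1 p.2)) with hTR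
  set TL := T.filter (fun p => pg (x p.1 p.2) (x p.1 (p.2 + 1)) = 3 ∧ P (x p.1 p.2) < P z) with hTL
  have hcover : T ⊆ T0 ∪ (TR ∪ TL) := by
    intro p hp
    obtain ⟨h1, h2, h3⟩ := hmem p hp
    obtain ⟨g1, g2, g3⟩ := hg p hp
    have h4 := h.page_x h1 h2 (by omega) g3
    have nz1 := h.ne (M_x h1 h2.le) M_z x_ne_z
    rw [Finset.mem_union, Finset.mem_union, hT0, hTR, hTL, Finset.mem_filter, Finset.mem_filter,
      Finset.mem_filter]
    rcases h4 with h4 | h4
    · exact Or.inl ⟨hp, h4⟩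
    · rcases lt_or_gt_of_ne nz1 with h5 | h5
      · exact Or.inr (Or.inr ⟨hp, h4, h5⟩)
      · exact Or.inr (Or.inl ⟨hp, h4, h5⟩)
  have c0 : T0.card ≤ (Finset.Ioo (c j) (c (j + 1))).card := by
    refine Finset.card_le_card_of_injOn g ?_ ?_
    · intro p hp
      have hp1 := (Finset.mem_filter.1 (Finset.mem_coe.1 hp)).1
      obtain ⟨g1, g2, g3⟩ := hg p hp1
      exact Finset.mem_coe.2 (Finset.mem_Ioo.2 ⟨g1, g2⟩)
    · intro p hp p' hp' heq
      have hp1 := Finset.mem_filter.1 (Finset.mem_coe.1 hp)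
      have hp1' := Finset.mem_filter.1 (Finset.mem_coe.1 hp')
      obtain ⟨h1, h2, h3⟩ := hmem p hp1.1
      obtain ⟨h1', h2', h3'⟩ := hmem p' hp1'.1
      obtain ⟨g1, g2, g3⟩ := hg p hp1.1
      obtain ⟨g1', g2', g3'⟩ := hg p' hp1'.1
      rw [← heq] at g3'
      obtain ⟨e1, e2⟩ := h.e_inj h1 h2 h1' h2' g3 g3' hp1.2 hp1'.2
      obtain ⟨p1, p2⟩ := p
      obtain ⟨p1', p2'⟩ := p'
      dsimp only at e1 e2
      rw [e1, e2]
  have cR : TR.card ≤ 2 := by
    refine h.few hb TR ?_ (Or.inl ?_)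
    · intro p hp
      have hp1 := Finset.mem_filter.1 hp
      obtain ⟨h1, h2, h3⟩ := hmem p hp1.1
      exact ⟨h1, h2, hp1.2.1⟩
    · intro p hp
      exact (Finset.mem_filter.1 hp).2.2
  have cL : TL.card ≤ 2 := by
    refine h.few hb TL ?_ (Or.inr ?_)
    · intro p hp
      have hp1 := Finset.mem_filter.1 hp
      obtain ⟨h1, h2, h3⟩ := hmem p hp1.1
      exact ⟨h1, h2, hp1.2.1⟩
    · intro p hp
      exact (Finset.mem_filter.1 hp).2.2
  have htot := Finset.card_le_card hcover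
  have hu1 := Finset.card_union_le T0 (TR ∪ TL)
  have hu2 := Finset.card_union_le TR TL
  rw [Nat.card_Ioo] at c0
  have e1 : (j + 1) * (10 * B + 3) = j * (10 * B + 3) + (10 * B + 3) := by ring
  omega

end

end Pool.Agent.TH656.Bt
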