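import Mathlib

/-!
# Book thickness
-/

set_option autoImplicit false

namespace Pool.Agent.TH656.Bt

/-- `G` has a `k`-page book embedding: a linear order of the vertices and an assignment of the edges
to `k` pages such that no page contains two edges `vw` and `xy` with `v < x < w < y`. -/
def HasBookEmbedding {V : Type*} (G : SimpleGraph V) (k : ℕ) : Prop :=
  ∃ (_ : LinearOrder V) (page : G.edgeSet → Fin k),
    ∀ (v w x y : V) (h : G.Adj v w) (h' : G.Adj x y), v < x → x < w → w < y →
      page ⟨s(v, w), h⟩ ≠ page ⟨s(x, y), h'⟩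

/-- The book thickness: the least number of pages of a book embedding. -/
noncomputable def bookThickness {V : Type*} (G : SimpleGraph V) : ℕ :=
  sInf {k | HasBookEmbedding G k}

theorem HasBookEmbedding.mono {V : Type*} {G : SimpleGraph V} {j k : ℕ}
    (h : HasBookEmbedding G j) (hjk : j ≤ k) : HasBookEmbedding G k := by
  obtain ⟨o, page, h1⟩ := h
  exact ⟨o, fun e => Fin.castLE hjk (page e), fun v w x y h h' h2 h3 h4 h5 =>
    h1 v w x y h h' h2 h3 h4 (Fin.castLE_injective hjk h5)⟩

/-- every finite graph has a book embedding -/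
theorem exists_hasBookEmbedding {V : Type*} [Finite V] (G : SimpleGraph V) :
    ∃ k, HasBookEmbedding G k := by
  classical
  obtain ⟨n, ⟨e⟩⟩ := Finite.exists_equiv_fin V
  obtain ⟨k, ⟨f⟩⟩ := Finite.exists_equiv_fin G.edgeSet
  refine ⟨k, LinearOrder.lift' e e.injective, f, ?_⟩
  intro v w x y h h' h2 h3 h4 h5
  have h6 : s(v, w) = s(x, y) := congrArg Subtype.val (f.injective h5)
  rw [Sym2.eq_iff] at h6
  let _ : LinearOrder V := LinearOrder.lift' e e.injective
  rcases h6 with ⟨rfl, rfl⟩ | ⟨rfl, rfl⟩
  · exact lt_irrefl (α := V) _ h2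
  · exact lt_irrefl (α := V) _ h3

/-- the definition of the book thickness says what it should -/
theorem bookThickness_le_iff {V : Type*} [Finite V] {G : SimpleGraph V} {k : ℕ} :
    bookThickness G ≤ k ↔ HasBookEmbedding G k := by
  constructor
  · intro h
    have h1 : HasBookEmbedding G (bookThickness G) := Nat.sInf_mem (exists_hasBookEmbedding G)
    exact h1.mono h
  · intro h
    exact Nat.sInf_le h

/-- A form that is easier to work with. -/
theorem hasBookEmbedding_iff {V : Type*} [Fintype V] {G : SimpleGraph V} {k : ℕ} (hk : 0 < k) :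
    HasBookEmbedding G k ↔ ∃ (pos : V → ℤ) (pg : V → V → ℕ), Function.Injective pos ∧
      (∀ v w, pg v w < k) ∧ (∀ v w, pg v w = pg w v) ∧
      ∀ v w x y, G.Adj v w → G.Adj x y → pos v < pos x → pos x < pos w → pos w < pos y →
        pg v w ≠ pg x y := by
  classical
  constructor
  · rintro ⟨o, page, h1⟩
    have hmono : ∀ v w : V, v < w → ((Finset.univ.filter (fun u => u < v)).card : ℤ) <
        (Finset.univ.filter (fun u => u < w)).card := by
      intro v w hvw
      rw [Nat.cast_lt]
      refine Finset.card_lt_card ?_
      rw [Finset.ssubset_iff_of_subset]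
      · exact ⟨v, by simpa using hvw, by simp⟩
      · intro u hu
        simp only [Finset.mem_filter, Finset.mem_univ, true_and] at hu ⊢
        exact hu.trans hvw
    have hlt : ∀ v w : V, ((Finset.univ.filter (fun u => u < v)).card : ℤ) <
        (Finset.univ.filter (fun u => u < w)).card → v < w := by
      intro v w h
      rcases lt_trichotomy v w with h2 | h2 | h2
      · exact h2
      · subst h2
        exact absurd h (lt_irrefl _)
      · exact absurd (h.trans (hmono w v h2)) (lt_irrefl _)
    refine ⟨fun v => (Finset.univ.filter (fun u => u < v)).card,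
      fun v w => if h : G.Adj v w then (page ⟨s(v, w), h⟩ : ℕ) else 0, ?_, ?_, ?_, ?_⟩
    · intro v w h
      dsimp only at h
      rcases lt_trichotomy v w with h2 | h2 | h2
      · have := hmono v w h2
        omega
      · exact h2
      · have := hmono w v h2
        omega
    · intro v w
      dsimp only
      split_ifs
      · exact Fin.is_lt _
      · exact hk
    · intro v w
      dsimp only
      by_cases h : G.Adj v w
      · rw [dif_pos h, dif_pos h.symm]
        congr 2
        exact Subtype.ext Sym2.eq_swap
      · rw [dif_neg h, dif_neg (fun h' => h h'.symm)]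
    · intro v w x y h h' h2 h3 h4
      dsimp only
      rw [dif_pos h, dif_pos h']
      intro h5
      exact h1 v w x y h h' (hlt _ _ h2) (hlt _ _ h3) (hlt _ _ h4) (Fin.ext h5)
  · rintro ⟨pos, pg, h1, h2, h3, h4⟩
    refine ⟨LinearOrder.lift' pos h1,
      fun e => ⟨Sym2.lift ⟨fun v w => pg v w, h3⟩ e.1, ?_⟩, ?_⟩
    · obtain ⟨e, he⟩ := e
      induction e using Sym2.ind with
      | _ v w => exact h2 v w
    · intro v w x y h h' h5 h6 h7 h8
      exact h4 v w x y h h' h5 h6 h7 (congrArg Fin.val h8)

end Pool.Agent.TH656.Bt
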