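import Pool.Agent.TH656.GrG
import Pool.Agent.TH656.Bt.Defs
import Pool.Agent.TH656.Bt.Count

/-!
# The graph of a bin packing instance
-/

set_option autoImplicit false

namespace Pool.Agent.TH656.Bt

/-- Vertices: `(c, 0, 0, 0)` is the hub `c`, `(κ, v)` the vertex `v` of the copy `κ`. -/
abbrev V4 : Type := ℕ × ℕ × ℕ × ℕ

/-- The adjacency (in one direction). -/
def ad (b B : ℕ) (v w : V4) : Bool :=
  (decide (v.2.1 = 0) && !decide (w.2.1 = 0) && ray b B w.2 v.1) ||
  (decide (v.2.1 = 1) && (decide (w.2.1 = 2) || decide (w.2.1 = 3)) && decide (v.1 = w.1)) ||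
  (decide (v.2.1 = 2) && decide (w.2.1 = 2) && decide (v.1 = w.1) &&
    decide (w.2.2.1 = v.2.2.1 + 1)) ||
  (decide (v.2.1 = 3) && decide (w.2.1 = 3) && decide (v.1 = w.1) &&
    decide (w.2.2.1 = v.2.2.1) && decide (w.2.2.2 = v.2.2.2 + 1))

/-- the number of copies -/
@[irreducible] def KK : ℕ := 8193

theorem KK_eq : KK = 8193 := by
  unfold KK
  rfl

/-- The vertices of a copy. -/
def cl (a : List ℕ) (b B : ℕ) : List LV :=
  z :: (List.range (b * (10 * B + 3) + 1)).map (fun m => ((2, m, 0) : LV)) ++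
    (List.range a.length).flatMap
      (fun i => (List.range (10 * a.getD i 0 + 1)).map (fun q => ((3, i, q) : LV)))

/-- The list of all vertices. -/
def vl (a : List ℕ) (b B : ℕ) : List V4 :=
  (List.range 4).map (fun c => ((c, 0, 0, 0) : V4)) ++
    (List.range KK).flatMap (fun κ => (cl a b B).map (fun v => ((κ, v) : V4)))

theorem mem_cl {a : List ℕ} {b B : ℕ} {v : LV} : v ∈ cl a b B ↔ M a b B v := by
  obtain ⟨k, i, j⟩ := v
  simp only [cl, List.mem_append, List.mem_cons, List.mem_map, List.mem_range, List.mem_flatMap,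
    Prod.mk.injEq, M]
  constructor
  · rintro ((h | ⟨m, h1, h2, h3, h4⟩) | ⟨i', h1, q, h2, h3, h4, h5⟩)
    · exact Or.inl h
    · exact Or.inr (Or.inl ⟨h2.symm, by omega, h4.symm⟩)
    · subst h4; subst h5
      exact Or.inr (Or.inr ⟨h3.symm, h1, by omega⟩)
  · rintro (h | ⟨h1, h2, h3⟩ | ⟨h1, h2, h3⟩)
    · exact Or.inl (Or.inl h)
    · exact Or.inl (Or.inr ⟨i, by omega, h1.symm, rfl, h3.symm⟩)
    · exact Or.inr ⟨i, h2, j, by omega, h1.symm, rfl, rfl⟩

theorem nodup_cl (a : List ℕ) (b B : ℕ) : (cl a b B).Nodup := by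
  rw [cl, List.nodup_append]
  refine ⟨?_, ?_, ?_⟩
  · rw [List.nodup_cons]
    constructor
    · intro h
      simp [z] at h
    · exact List.Nodup.map (fun x y h => by simpa using h) List.nodup_range
  · rw [List.nodup_flatMap]
    constructor
    · intro i _
      exact List.Nodup.map (fun x y h => by simpa using h) List.nodup_range
    · refine List.Nodup.pairwise_of_forall_ne List.nodup_range ?_
      intro i _ i' _ hii
      rw [Function.onFun, List.disjoint_left]
      intro x hx hx'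
      simp only [List.mem_map] at hx hx'
      obtain ⟨q, _, rfl⟩ := hx
      obtain ⟨q', _, h⟩ := hx'
      simp only [Prod.mk.injEq] at h
      exact hii h.2.1.symm
  · intro x hx y hy hxy
    subst hxy
    simp only [List.mem_flatMap, List.mem_map, List.mem_range] at hy
    obtain ⟨i, _, q, _, rfl⟩ := hy
    simp [z] at hx

theorem M_kind {a : List ℕ} {b B : ℕ} {v : LV} (h : M a b B v) : v.1 = 1 ∨ v.1 = 2 ∨ v.1 = 3 := by
  rcases h with rfl | h | h
  · exact Or.inl rfl
  · exact Or.inr (Or.inl h.1)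
  · exact Or.inr (Or.inr h.1)

theorem mem_vl {a : List ℕ} {b B : ℕ} {v : V4} : v ∈ vl a b B ↔
    (v.1 < 4 ∧ v.2 = (0, 0, 0)) ∨ (v.1 < KK ∧ M a b B v.2) := by
  obtain ⟨κ, v⟩ := v
  simp only [vl, List.mem_append, List.mem_map, List.mem_range, List.mem_flatMap, Prod.mk.injEq,
    mem_cl]
  constructor
  · rintro (⟨c, h1, h2, h3⟩ | ⟨κ', h1, v', h2, h3, h4⟩)
    · subst h2; subst h3
      exact Or.inl ⟨h1, rfl⟩
    · subst h3; subst h4
      exact Or.inr ⟨h1, h2⟩
  · rintro (⟨h1, h2⟩ | ⟨h1, h2⟩)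
    · exact Or.inl ⟨κ, h1, rfl, h2.symm⟩
    · exact Or.inr ⟨κ, h1, v, h2, rfl, rfl⟩

theorem nodup_vl (a : List ℕ) (b B : ℕ) : (vl a b B).Nodup := by
  rw [vl, List.nodup_append]
  refine ⟨?_, ?_, ?_⟩
  · exact List.Nodup.map (fun x y h => by simpa using h) List.nodup_range
  · rw [List.nodup_flatMap]
    constructor
    · intro i _
      exact List.Nodup.map (fun x y h => by simpa using h) (nodup_cl a b B)
    · refine List.Nodup.pairwise_of_forall_ne List.nodup_range ?_
      intro i _ i' _ hii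
      rw [Function.onFun, List.disjoint_left]
      intro x hx hx'
      simp only [List.mem_map] at hx hx'
      obtain ⟨q, _, rfl⟩ := hx
      obtain ⟨q', _, h⟩ := hx'
      simp only [Prod.mk.injEq] at h
      exact hii h.1.symm
  · intro x hx y hy hxy
    subst hxy
    simp only [List.mem_flatMap, List.mem_map, List.mem_range] at hy hx
    obtain ⟨i, _, v, hv, rfl⟩ := hy
    obtain ⟨c, _, h⟩ := hx
    rw [mem_cl] at hv
    have h1 := M_kind hv
    rw [← (Prod.mk.injEq _ _ _ _).mp h |>.2] at h1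
    simp at h1

/-- The graph of the bin packing instance. -/
def gr (a : List ℕ) (b B : ℕ) : Pool.Agent.H692R2.FinGraph := lgr (vl a b B) (ad b B)

/-- Adjacency in any direction. -/
def Adj (b B : ℕ) (v w : V4) : Prop := ad b B v w = true ∨ ad b B w v = true

theorem Adj.symm {b B : ℕ} {u v : V4} (h : Adj b B u v) : Adj b B v u := Or.symm h

theorem adj_hub {b B c κ : ℕ} {v : LV} (hv : v.1 ≠ 0) :
    Adj b B (κ, v) (c, 0, 0, 0) ↔ ray b B v c = true := by
  simp [Adj, ad, hv]

theorem adj_z {a : List ℕ} {b B κ κ' : ℕ} {v : LV} (hv : M a b B v) (hvz : v ≠ z) :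
    Adj b B (κ, z) (κ', v) ↔ κ = κ' := by
  have h1 : v.1 = 2 ∨ v.1 = 3 := by
    rcases hv with h | h | h
    · exact absurd h hvz
    · exact Or.inl h.1
    · exact Or.inr h.1
  rcases h1 with h1 | h1 <;> simp [Adj, ad, h1, z]

theorem adj_nz {a : List ℕ} {b B κ κ' : ℕ} {v w : LV} (hv : M a b B v) (hw : M a b B w)
    (hvz : v ≠ z) (hwz : w ≠ z) : Adj b B (κ, v) (κ', w) ↔ κ = κ' ∧ NZ v w := by
  have h1 : v.1 = 2 ∨ v.1 = 3 := by
    rcases hv with h | h | h
    · exact absurd h hvz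
    · exact Or.inl h.1
    · exact Or.inr h.1
  have h2 : w.1 = 2 ∨ w.1 = 3 := by
    rcases hw with h | h | h
    · exact absurd h hwz
    · exact Or.inl h.1
    · exact Or.inr h.1
  rcases h1 with h1 | h1 <;> rcases h2 with h2 | h2 <;> simp [Adj, ad, NZ, h1, h2] <;> omega

theorem adj_hh {b B c c' : ℕ} : ¬ Adj b B (c, 0, 0, 0) (c', 0, 0, 0) := by
  simp [Adj, ad]

/-- The two vertices are different if they are adjacent. -/
theorem Adj.ne {b B : ℕ} {v w : V4} (h : Adj b B v w) : v ≠ w := by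
  rintro rfl
  obtain ⟨κ, k, i, j⟩ := v
  simp only [Adj, ad] at h
  simp at h
  omega

/-- positions and pages of a book embedding of the graph -/
structure Emb (a : List ℕ) (b B : ℕ) (pos : V4 → ℤ) (pg : V4 → V4 → ℕ) : Prop where
  inj : ∀ v w, v ∈ vl a b B → w ∈ vl a b B → pos v = pos w → v = w
  lt : ∀ v w, pg v w < 4
  sym : ∀ v w, pg v w = pg w v
  cr : ∀ v w x y, v ∈ vl a b B → w ∈ vl a b B → x ∈ vl a b B → y ∈ vl a b B → Adj b B v w →
    Adj b B x y → pos v < pos x → pos x < pos w → pos w < pos y → pg v w ≠ pg x y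

theorem emb_iff {a : List ℕ} {b B : ℕ} :
    HasBookEmbedding (gr a b B).graph 4 ↔ ∃ pos pg, Emb a b B pos pg := by
  rw [hasBookEmbedding_iff (by norm_num)]
  constructor
  · rintro ⟨pos, pg, h1, h2, h3, h4⟩
    have hlt : ∀ v ∈ vl a b B, (vl a b B).idxOf v < (vl a b B).length := fun v hv =>
      List.idxOf_lt_length_iff.2 hv
    have hadj : ∀ v w (hv : v ∈ vl a b B) (hw : w ∈ vl a b B), Adj b B v w →
        (gr a b B).graph.Adj ⟨(vl a b B).idxOf v, hlt v hv⟩ ⟨(vl a b B).idxOf w, hlt w hw⟩ := by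
      intro v w hv hw hvw
      refine (lgr_adj (l := vl a b B) (ad := ad b B)
        (⟨(vl a b B).idxOf v, hlt v hv⟩ : Fin (vl a b B).length)
        (⟨(vl a b B).idxOf w, hlt w hw⟩ : Fin (vl a b B).length)).2 ⟨?_, ?_⟩
      · intro hc
        exact hvw.ne ((List.idxOf_inj hv).1 (congrArg Fin.val hc))
      · have ev : (vl a b B).get ⟨(vl a b B).idxOf v, hlt v hv⟩ = v := List.idxOf_get _
        have ew : (vl a b B).get ⟨(vl a b B).idxOf w, hlt w hw⟩ = w := List.idxOf_get _
        rw [ev, ew]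
        exact hvw
    refine ⟨fun v => if h : (vl a b B).idxOf v < (vl a b B).length then
        pos ⟨(vl a b B).idxOf v, h⟩ else 0,
      fun v w => if h : (vl a b B).idxOf v < (vl a b B).length ∧
        (vl a b B).idxOf w < (vl a b B).length then
        pg ⟨(vl a b B).idxOf v, h.1⟩ ⟨(vl a b B).idxOf w, h.2⟩ else 0, ?_, ?_, ?_, ?_⟩
    · intro v w hv hw h
      simp only [hlt v hv, hlt w hw, dif_pos] at h
      exact (List.idxOf_inj hv).1 (congrArg Fin.val (h1 h))
    · intro v w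
      split_ifs
      · exact h2 _ _
      · norm_num
    · intro v w
      by_cases h : (vl a b B).idxOf v < (vl a b B).length ∧
        (vl a b B).idxOf w < (vl a b B).length
      · rw [dif_pos h, dif_pos ⟨h.2, h.1⟩]
        exact h3 _ _
      · rw [dif_neg h, dif_neg (fun h' => h ⟨h'.2, h'.1⟩)]
    · intro v w x y hv hw hx hy h5 h6 h7 h8 h9
      simp only [hlt v hv, hlt w hw, hlt x hx, hlt y hy, dif_pos] at h7 h8 h9
      rw [dif_pos ⟨hlt v hv, hlt w hw⟩, dif_pos ⟨hlt x hx, hlt y hy⟩]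
      exact h4 _ _ _ _ (hadj v w hv hw h5) (hadj x y hx hy h6) h7 h8 h9
  · rintro ⟨pos, pg, h1, h2, h3, h4⟩
    refine ⟨fun i => pos ((vl a b B).get i), fun i j => pg ((vl a b B).get i) ((vl a b B).get j),
      ?_, fun _ _ => h2 _ _, fun _ _ => h3 _ _, ?_⟩
    · intro i j h
      exact (List.Nodup.get_inj_iff (nodup_vl a b B)).1
        (h1 _ _ (List.get_mem _ _) (List.get_mem _ _) h)
    · intro v w x y h5 h6 h7 h8 h9
      exact h4 _ _ _ _ (List.get_mem _ _) (List.get_mem _ _) (List.get_mem _ _) (List.get_mem _ _)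
        ((lgr_adj (l := vl a b B) (ad := ad b B) _ _).1 h5).2
        ((lgr_adj (l := vl a b B) (ad := ad b B) _ _).1 h6).2 h7 h8 h9

end Pool.Agent.TH656.Bt
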