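import Mathlib

/-!
# Book embeddings: the structure of one copy

Pages: `0` item edges, `1` and `2` frame edges, `3` the star of `z`.
-/

set_option autoImplicit false

namespace Pool.Agent.TH656.Bt

/-- Vertices of a copy: `(1, 0, 0)` is `z`, `(2, m, 0)` the frame, `(3, i, q)` the items. -/
abbrev LV : Type := ℕ × ℕ × ℕ

/-- the vertex `z` -/
def z : LV := (1, 0, 0)

/-- the frame -/
def u (m : ℕ) : LV := (2, m, 0)

/-- the items -/
def x (i q : ℕ) : LV := (3, i, q)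

/-- the separators -/
def isep (B m : ℕ) : Bool :=
  decide (m % (10 * B + 3) = 0) || decide (m % (10 * B + 3) = 1) ||
    decide (m % (10 * B + 3) = 10 * B + 2)

/-- `v` is adjacent to the hub `c` -/
def ray (b B : ℕ) (v : LV) (c : ℕ) : Bool :=
  (decide (v.1 = 2) && (decide (v.2.1 = 0) || decide (v.2.1 = b * (10 * B + 3)) ||
    (isep B v.2.1 && !decide (c = 3)) || decide (c = 1) || decide (c = 2))) ||
  (decide (v.1 = 3) && (decide (c = 0) || decide (c = 2 - v.2.2 % 2)))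

/-- the vertices of a copy -/
def M (a : List ℕ) (b B : ℕ) (v : LV) : Prop :=
  v = z ∨ (v.1 = 2 ∧ v.2.1 ≤ b * (10 * B + 3) ∧ v.2.2 = 0) ∨
    (v.1 = 3 ∧ v.2.1 < a.length ∧ v.2.2 ≤ 10 * a.getD v.2.1 0)

/-- adjacency of vertices of a copy other than `z` -/
def NZ (v w : LV) : Prop :=
  (v.1 = 2 ∧ w.1 = 2 ∧ (w.2.1 = v.2.1 + 1 ∨ v.2.1 = w.2.1 + 1)) ∨
    (v.1 = 3 ∧ w.1 = 3 ∧ v.2.1 = w.2.1 ∧ (w.2.2 = v.2.2 + 1 ∨ v.2.2 = w.2.2 + 1))

/-- `w` is strictly between `v` and `y` -/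
def BT (P : LV → ℤ) (v w y : LV) : Prop := (P v < P w ∧ P w < P y) ∨ (P y < P w ∧ P w < P v)

theorem BT.symm {P : LV → ℤ} {v w y : LV} (h : BT P v w y) : BT P y w v := Or.symm h

/-- The structure of a copy in the regular zone. -/
structure Loc (a : List ℕ) (b B : ℕ) (P : LV → ℤ) (pg : LV → LV → ℕ) : Prop where
  inj : ∀ v w, M a b B v → M a b B w → P v = P w → v = w
  lt : ∀ v w, pg v w < 4
  sym : ∀ v w, pg v w = pg w v
  bz : ∀ v w, M a b B v → v ≠ z → M a b B w → BT P z w v → ray b B w (pg z v) = false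
  be : ∀ v y w, M a b B v → M a b B y → NZ v y → M a b B w → BT P v w y →
    ray b B w (pg v y) = false
  c1 : ∀ v y w, M a b B v → M a b B y → NZ v y → M a b B w → w ≠ z → BT P v w y → ¬ BT P v z y →
    pg z w ≠ pg v y
  c2 : ∀ v y w, M a b B v → M a b B y → NZ v y → M a b B w → w ≠ z → w ≠ v → w ≠ y →
    BT P v z y → ¬ BT P v w y → pg z w ≠ pg v y
  or : P (u 0) < P (u (b * (10 * B + 3)))

section

variable {a : List ℕ} {b B : ℕ}

theorem M_z : M a b B z := Or.inl rfl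

theorem M_u {m : ℕ} (h : m ≤ b * (10 * B + 3)) : M a b B (u m) := Or.inr (Or.inl ⟨rfl, h, rfl⟩)

theorem M_x {i q : ℕ} (hi : i < a.length) (hq : q ≤ 10 * a.getD i 0) : M a b B (x i q) :=
  Or.inr (Or.inr ⟨rfl, hi, hq⟩)

theorem u_ne_z {m : ℕ} : u m ≠ z := by simp [u, z]

theorem x_ne_z {i q : ℕ} : x i q ≠ z := by simp [x, z]

theorem u_ne_x {m i q : ℕ} : u m ≠ x i q := by simp [x, u]

theorem x_ne_u {m i q : ℕ} : x i q ≠ u m := by simp [x, u]

theorem u_inj {m m' : ℕ} : u m = u m' ↔ m = m' := by simp [u]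

theorem x_inj {i q i' q' : ℕ} : x i q = x i' q' ↔ i = i' ∧ q = q' := by simp [x]

theorem NZ_u {m : ℕ} : NZ (u m) (u (m + 1)) := Or.inl ⟨rfl, rfl, Or.inl rfl⟩

theorem NZ_x {i q : ℕ} : NZ (x i q) (x i (q + 1)) := Or.inr ⟨rfl, rfl, rfl, Or.inl rfl⟩

theorem NZ.symm {v w : LV} (h : NZ v w) : NZ w v := by
  rcases h with ⟨h1, h2, h3⟩ | ⟨h1, h2, h3, h4⟩
  · exact Or.inl ⟨h2, h1, h3.symm⟩
  · exact Or.inr ⟨h2, h1, h3.symm, h4.symm⟩

theorem NZ.ne_z {v w : LV} (h : NZ v w) : v ≠ z := by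
  rintro rfl
  rcases h with ⟨h1, h2, h3⟩ | ⟨h1, h2, h3, h4⟩
  · simp [z] at h1
  · simp [z] at h1

theorem ray_w0 {c : ℕ} : ray b B (u 0) c = true := by simp [ray, u]

theorem ray_wN {c : ℕ} : ray b B (u (b * (10 * B + 3))) c = true := by simp [ray, u]

theorem ray_sep {m c : ℕ} (hm : isep B m = true) (h : ray b B (u m) c = false) : c = 3 := by
  simp [ray, u, hm] at h
  tauto

theorem ray_u {m c : ℕ} (hc : c < 4) (h : ray b B (u m) c = false) : c = 0 ∨ c = 3 := by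
  simp [ray, u] at h
  omega

theorem ray_x {i q c : ℕ} (h : ray b B (x i q) c = false) : c ≠ 0 ∧ c ≠ 2 - q % 2 := by
  simp only [ray, x] at h
  simp at h
  refine ⟨h.1, fun hc => ?_⟩
  rw [hc] at h
  simp at h

theorem nb_w0 {v : LV} (hv : M a b B v) (h : NZ (u 0) v) : v = u 1 := by
  obtain ⟨k, i, j⟩ := v
  rcases h with ⟨h1, h2, h3⟩ | ⟨h1, h2, h3, h4⟩
  · simp [u] at h2 h3
    subst h2
    rcases hv with h | h | h
    · simp [z] at h
    · obtain ⟨_, _, h5⟩ := h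
      dsimp only at h5
      subst h5
      rw [h3]
      rfl
    · exact absurd h.1 (by norm_num)
  · simp [u] at h1

theorem nb_wN {v : LV} (hv : M a b B v) (h : NZ (u (b * (10 * B + 3))) v) :
    v = u (b * (10 * B + 3) - 1) := by
  obtain ⟨k, i, j⟩ := v
  rcases h with ⟨h1, h2, h3⟩ | ⟨h1, h2, h3, h4⟩
  · simp [u] at h2 h3
    subst h2
    rcases hv with h | h | h
    · simp [z] at h
    · obtain ⟨_, h6, h5⟩ := h
      dsimp only at h5 h6
      subst h5
      have : i = b * (10 * B + 3) - 1 := by omega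
      rw [this]
      rfl
    · exact absurd h.1 (by norm_num)
  · simp [u] at h1

theorem sep_one : isep B 1 = true := by
  have : 1 % (10 * B + 3) = 1 := Nat.mod_eq_of_lt (by omega)
  simp [isep, this]

theorem mod_pred {j : ℕ} (hj : 1 ≤ j) : (j * (10 * B + 3) - 1) % (10 * B + 3) = 10 * B + 2 := by
  obtain ⟨k, rfl⟩ : ∃ k, j = k + 1 := ⟨j - 1, by omega⟩
  have : (k + 1) * (10 * B + 3) - 1 = 10 * B + 2 + (10 * B + 3) * k := by
    have : (k + 1) * (10 * B + 3) = (10 * B + 3) * k + (10 * B + 3) := by ring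
    omega
  rw [this, Nat.add_mul_mod_self_left]
  exact Nat.mod_eq_of_lt (by omega)

theorem sep_pred {j : ℕ} (hj : 1 ≤ j) : isep B (j * (10 * B + 3) - 1) = true := by
  simp [isep, mod_pred hj]

theorem sep_mul {j : ℕ} : isep B (j * (10 * B + 3)) = true := by
  simp [isep]

theorem sep_succ {j : ℕ} : isep B (j * (10 * B + 3) + 1) = true := by
  have : (j * (10 * B + 3) + 1) % (10 * B + 3) = 1 := by
    rw [add_comm, mul_comm, Nat.add_mul_mod_self_left]
    exact Nat.mod_eq_of_lt (by omega)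
  simp [isep, this]

theorem hN (hb : 1 ≤ b) : 3 ≤ b * (10 * B + 3) := by
  calc 3 = 1 * 3 := by norm_num
    _ ≤ b * (10 * B + 3) := Nat.mul_le_mul hb (by omega)

variable {P : LV → ℤ} {pg : LV → LV → ℕ}

theorem Loc.ne (h : Loc a b B P pg) {v w : LV} (hv : M a b B v) (hw : M a b B w) (hne : v ≠ w) :
    P v ≠ P w := fun hc => hne (h.inj v w hv hw hc)

theorem Loc.z_between (h : Loc a b B P pg) :
    P (u 0) < P z ∧ P z < P (u (b * (10 * B + 3))) := by
  have hor := h.or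
  have h0 : M a b B (u 0) := M_u (Nat.zero_le _)
  have h1 : M a b B (u (b * (10 * B + 3))) := M_u le_rfl
  have n0 := h.ne h0 M_z u_ne_z
  have n1 := h.ne h1 M_z u_ne_z
  constructor
  · by_contra hc
    have h2 := h.bz _ _ h1 u_ne_z h0 (Or.inl ⟨by omega, hor⟩)
    rw [ray_w0] at h2
    exact absurd h2 (by decide)
  · by_contra hc
    have h2 := h.bz _ _ h0 u_ne_z h1 (Or.inr ⟨hor, by omega⟩)
    rw [ray_wN] at h2
    exact absurd h2 (by decide)

theorem Loc.between (h : Loc a b B P pg) {v : LV} (hv : M a b B v) (hvz : v ≠ z)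
    (hv0 : v ≠ u 0) (hvN : v ≠ u (b * (10 * B + 3))) :
    P (u 0) < P v ∧ P v < P (u (b * (10 * B + 3))) := by
  have hz := h.z_between
  have h0 : M a b B (u 0) := M_u (Nat.zero_le _)
  have h1 : M a b B (u (b * (10 * B + 3))) := M_u le_rfl
  have n0 := h.ne hv h0 hv0
  have n1 := h.ne hv h1 hvN
  constructor
  · by_contra hc
    have h2 := h.bz _ _ hv hvz h0 (Or.inr ⟨by omega, hz.1⟩)
    rw [ray_w0] at h2
    exact absurd h2 (by decide)
  · by_contra hc
    have h2 := h.bz _ _ hv hvz h1 (Or.inl ⟨hz.2, by omega⟩)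
    rw [ray_wN] at h2
    exact absurd h2 (by decide)

/-- No edge (except those at `z`) of page `3` passes over `z`. -/
theorem Loc.C1 (h : Loc a b B P pg) (hb : 1 ≤ b) {v y : LV} (hv : M a b B v) (hy : M a b B y)
    (hE : NZ v y) (hp : pg v y = 3) (hvz : P v < P z) (hzy : P z < P y) : False := by
  have hN := hN (B := B) hb
  have hz := h.z_between
  have m0 : M a b B (u 0) := M_u (Nat.zero_le _)
  have mN : M a b B (u (b * (10 * B + 3))) := M_u le_rfl
  have m1 : M a b B (u 1) := M_u (by omega)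
  have n1 := h.ne m1 M_z u_ne_z
  -- the edge from `z` to the left wall is not on page 3
  have hl : v ≠ u 0 → pg z (u 0) ≠ 3 := by
    intro hv0
    have hvn := h.between hv hE.ne_z hv0 (fun hc => by rw [hc] at hvz; omega)
    intro hc3
    refine h.c2 v y (u 0) hv hy hE m0 u_ne_z (Ne.symm hv0) ?_ (Or.inl ⟨hvz, hzy⟩) ?_
      (hc3.trans hp.symm)
    · intro hc
      rw [← hc] at hzy
      omega
    · rintro (h1 | h1) <;> omega
  have hr : y ≠ u (b * (10 * B + 3)) → pg z (u (b * (10 * B + 3))) ≠ 3 := by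
    intro hyN
    have hyn := h.between hy hE.symm.ne_z (fun hc => by rw [hc] at hzy; omega) hyN
    intro hc3
    refine h.c2 v y (u (b * (10 * B + 3))) hv hy hE mN u_ne_z ?_ (Ne.symm hyN)
      (Or.inl ⟨hvz, hzy⟩) ?_ (hc3.trans hp.symm)
    · intro hc
      rw [← hc] at hvz
      omega
    · rintro (h1 | h1) <;> omega
  rcases lt_or_gt_of_ne n1 with h1 | h1
  · -- the separator is to the left of `z`
    have h2 : v ≠ u 0 := by
      rintro rfl
      have := nb_w0 hy hE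
      rw [this] at hzy
      omega
    have h3 := h.between m1 u_ne_z (by rw [Ne, u_inj]; omega) (by rw [Ne, u_inj]; omega)
    exact hl h2 (ray_sep sep_one (h.bz _ _ m0 u_ne_z m1 (Or.inr ⟨h3.1, h1⟩)))
  · by_cases h2 : y = u (b * (10 * B + 3))
    · subst h2
      have h4 := nb_wN hv hE.symm
      subst h4
      have h5 : u (b * (10 * B + 3) - 1) ≠ u 0 := by rw [Ne, u_inj]; omega
      have h6 := h.between hv hE.ne_z h5 (by rw [Ne, u_inj]; omega)
      exact hl h5 (ray_sep (sep_pred hb) (h.bz _ _ m0 u_ne_z hv (Or.inr ⟨h6.1, hvz⟩)))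
    · have h3 := h.between m1 u_ne_z (by rw [Ne, u_inj]; omega) (by rw [Ne, u_inj]; omega)
      exact hr h2 (ray_sep sep_one (h.bz _ _ mN u_ne_z m1 (Or.inl ⟨h1, h3.2⟩)))

theorem Loc.C1' (h : Loc a b B P pg) (hb : 1 ≤ b) {v y : LV} (hv : M a b B v) (hy : M a b B y)
    (hE : NZ v y) (hp : pg v y = 3) : ¬ BT P v z y := by
  rintro (h1 | h1)
  · exact h.C1 hb hv hy hE hp h1.1 h1.2
  · exact h.C1 hb hy hv hE.symm (by rw [h.sym, hp]) h1.1 h1.2

theorem Loc.C2 (h : Loc a b B P pg) (hb : 1 ≤ b) {v y w : LV} (hv : M a b B v) (hy : M a b B y)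
    (hE : NZ v y) (hp : pg v y = 3) (hw : M a b B w) (hbt : BT P v w y) : w ≠ z ∧ pg z w ≠ 3 := by
  have h1 := h.C1' hb hv hy hE hp
  have h2 : w ≠ z := by
    rintro rfl
    exact h1 hbt
  exact ⟨h2, fun hc3 => h.c1 v y w hv hy hE hw h2 hbt h1 (hc3.trans hp.symm)⟩

/-- the edge of the frame over a point -/
theorem Loc.exists_over (h : Loc a b B P pg) {v w : LV} (hv : M a b B v)
    (hw : M a b B w) (hvu : ∀ m, v ≠ u m) (hwu : ∀ m, w ≠ u m) (hvz : v ≠ z)
    (hno : ∀ m ≤ b * (10 * B + 3), ¬ BT P v (u m) w) :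
    ∃ m < b * (10 * B + 3), P (u m) < P v ∧ P w < P (u (m + 1)) := by
  classical
  have h1 := h.between hv hvz (hvu _) (hvu _)
  have hex : ∃ m, P v < P (u m) ∧ m ≤ b * (10 * B + 3) := ⟨_, h1.2, le_rfl⟩
  set k := Nat.find hex with hk
  have hk1 := Nat.find_spec hex
  rw [← hk] at hk1
  have hk0 : k ≠ 0 := by
    intro h0
    rw [h0] at hk1
    omega
  obtain ⟨m, hm⟩ := Nat.exists_eq_succ_of_ne_zero hk0
  have hmin := Nat.find_min hex (m := m) (by omega)
  rw [hm] at hk1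
  refine ⟨m, by omega, ?_, ?_⟩
  · have h2 : P v ≠ P (u m) := h.ne hv (M_u (by omega)) (hvu m)
    by_contra hc
    exact hmin ⟨by omega, by omega⟩
  · have h2 : P w ≠ P (u (m + 1)) := h.ne hw (M_u (by omega)) (hwu _)
    by_contra hc
    exact hno (m + 1) (by omega) (Or.inl ⟨hk1.1, by omega⟩)

/-- **The gap lemma**: between item vertices of different types there is a vertex of the frame. -/
theorem Loc.gap (h : Loc a b B P pg) (hb : 1 ≤ b) {i q i' q' : ℕ} (hi : i < a.length)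
    (hq : q ≤ 10 * a.getD i 0) (hi' : i' < a.length) (hq' : q' ≤ 10 * a.getD i' 0)
    (hne : q % 2 ≠ q' % 2) : ∃ m ≤ b * (10 * B + 3), BT P (x i q) (u m) (x i' q') := by
  suffices key : ∀ {i q i' q' : ℕ}, i < a.length → q ≤ 10 * a.getD i 0 → i' < a.length →
      q' ≤ 10 * a.getD i' 0 → q % 2 ≠ q' % 2 → P (x i q) < P (x i' q') →
      ∃ m ≤ b * (10 * B + 3), BT P (x i q) (u m) (x i' q') by
    have h1 : P (x i q) ≠ P (x i' q') := h.ne (M_x hi hq) (M_x hi' hq') (by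
      rw [Ne, x_inj]
      rintro ⟨-, rfl⟩
      exact hne rfl)
    rcases lt_or_gt_of_ne h1 with h2 | h2
    · exact key hi hq hi' hq' hne h2
    · obtain ⟨m, hm, h3⟩ := key hi' hq' hi hq (Ne.symm hne) h2
      exact ⟨m, hm, h3.symm⟩
  clear hi hq hi' hq' hne
  intro i q i' q' hi hq hi' hq' hne hlt
  by_contra hno
  push Not at hno
  have m1 := M_x (b := b) (B := B) hi hq
  have m2 := M_x (b := b) (B := B) hi' hq'
  obtain ⟨m, hm, h1, h2⟩ := h.exists_over m1 m2 (fun _ => x_ne_u) (fun _ => x_ne_u) x_ne_z hno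
  have mu := M_u (a := a) (b := b) (B := B) hm.le
  have mu' := M_u (a := a) (b := b) (B := B) (m := m + 1) hm
  have b1 : BT P (u m) (x i q) (u (m + 1)) := Or.inl ⟨h1, by omega⟩
  have b2 : BT P (u m) (x i' q') (u (m + 1)) := Or.inl ⟨by omega, h2⟩
  have r1 := ray_x (h.be _ _ _ mu mu' NZ_u m1 b1)
  have r2 := ray_x (h.be _ _ _ mu mu' NZ_u m2 b2)
  have hlt4 := h.lt (u m) (u (m + 1))
  have hp : pg (u m) (u (m + 1)) = 3 := by omega
  have hnz := h.C1' hb mu mu' NZ_u hp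
  have c1 := (h.C2 hb mu mu' NZ_u hp m1 b1).2
  have c2 := (h.C2 hb mu mu' NZ_u hp m2 b2).2
  have nz1 := h.ne mu M_z u_ne_z
  have nz2 := h.ne mu' M_z u_ne_z
  have hz : P z < P (u m) ∨ P (u (m + 1)) < P z := by
    by_contra hc
    exact hnz (Or.inl ⟨by omega, by omega⟩)
  rcases hz with hz | hz
  · have e1 := ray_x (h.bz _ _ m2 x_ne_z m1 (Or.inl ⟨by omega, hlt⟩))
    have e2 := ray_u (h.lt _ _) (h.bz _ _ m2 x_ne_z mu (Or.inl ⟨hz, by omega⟩))
    omega
  · have e1 := ray_x (h.bz _ _ m1 x_ne_z m2 (Or.inr ⟨hlt, by omega⟩))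
    have e2 := ray_u (h.lt _ _) (h.bz _ _ m1 x_ne_z mu' (Or.inr ⟨by omega, hz⟩))
    omega

/-- A separator under an edge: there is no separator between it and `z`. -/
theorem Loc.dirty (h : Loc a b B P pg) (hb : 1 ≤ b) {v y : LV} (hv : M a b B v) (hy : M a b B y)
    (hE : NZ v y) {m : ℕ} (hm : m ≤ b * (10 * B + 3)) (hs : isep B m = true)
    (hbt : BT P v (u m) y) {m' : ℕ} (hm' : m' ≤ b * (10 * B + 3)) (hs' : isep B m' = true) :
    ¬ BT P z (u m') (u m) := by
  intro hbt'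
  have hp : pg v y = 3 := ray_sep hs (h.be _ _ _ hv hy hE (M_u hm) hbt)
  have h1 := (h.C2 hb hv hy hE hp (M_u hm) hbt).2
  exact h1 (ray_sep hs' (h.bz _ _ (M_u hm) u_ne_z (M_u hm') hbt'))

/-- no edge passes over the frame vertex `m` -/
def Clean (a : List ℕ) (b B : ℕ) (P : LV → ℤ) (m : ℕ) : Prop :=
  ∀ v y, M a b B v → M a b B y → NZ v y → ¬ BT P v (u m) y

theorem same_side {Z p q : ℤ} (hne : p ≠ q) (k1 : ¬ ((Z < q ∧ q < p) ∨ (p < q ∧ q < Z)))
    (k2 : ¬ ((Z < p ∧ p < q) ∨ (q < p ∧ p < Z))) : ¬ (Z < p ∧ Z < q) ∧ ¬ (p < Z ∧ q < Z) := by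
  omega

theorem Loc.clean_or (h : Loc a b B P pg) (hb : 1 ≤ b) {j : ℕ} (hj : 1 ≤ j) (hjb : j < b) :
    ∃ m, j * (10 * B + 3) - 1 ≤ m ∧ m ≤ j * (10 * B + 3) + 1 ∧ Clean a b B P m := by
  by_contra hno
  push Not at hno
  have hjN : j * (10 * B + 3) + 3 ≤ b * (10 * B + 3) := by
    have h1 : (j + 1) * (10 * B + 3) ≤ b * (10 * B + 3) := Nat.mul_le_mul_right _ hjb
    have h2 : (j + 1) * (10 * B + 3) = j * (10 * B + 3) + (10 * B + 3) := by ring
    omega
  have hj3 : 3 ≤ j * (10 * B + 3) := hN hj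
  have key : ∀ m, isep B m = true → m ≤ b * (10 * B + 3) → ¬ Clean a b B P m →
      ∀ m', isep B m' = true → m' ≤ b * (10 * B + 3) → ¬ BT P z (u m') (u m) := by
    intro m hs hm hc m' hs' hm'
    unfold Clean at hc
    push Not at hc
    obtain ⟨v, y, hv, hy, hE, hbt⟩ := hc
    exact h.dirty hb hv hy hE hm hs hbt hm' hs'
  have s1 := sep_pred (B := B) hj
  have s2 := sep_mul (B := B) (j := j)
  have s3 := sep_succ (B := B) (j := j)
  have d1 := hno (j * (10 * B + 3) - 1) le_rfl (by omega)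
  have d2 := hno (j * (10 * B + 3)) (by omega) (by omega)
  have d3 := hno (j * (10 * B + 3) + 1) (by omega) le_rfl
  have M1 := M_u (a := a) (b := b) (B := B) (m := j * (10 * B + 3) - 1) (by omega)
  have M2 := M_u (a := a) (b := b) (B := B) (m := j * (10 * B + 3)) (by omega)
  have M3 := M_u (a := a) (b := b) (B := B) (m := j * (10 * B + 3) + 1) (by omega)
  have z1 := h.ne M1 M_z u_ne_z
  have z2 := h.ne M2 M_z u_ne_z
  have z3 := h.ne M3 M_z u_ne_z
  have n12 := h.ne M1 M2 (by rw [Ne, u_inj]; omega)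
  have n13 := h.ne M1 M3 (by rw [Ne, u_inj]; omega)
  have n23 := h.ne M2 M3 (by rw [Ne, u_inj]; omega)
  have k12 := key _ s1 (by omega) d1 _ s2 (by omega)
  have k13 := key _ s1 (by omega) d1 _ s3 (by omega)
  have k21 := key _ s2 (by omega) d2 _ s1 (by omega)
  have k23 := key _ s2 (by omega) d2 _ s3 (by omega)
  have k31 := key _ s3 (by omega) d3 _ s1 (by omega)
  have k32 := key _ s3 (by omega) d3 _ s2 (by omega)
  have e12 := same_side n12 k12 k21
  have e13 := same_side n13 k13 k31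
  have e23 := same_side n23 k23 k32
  omega

end

end Pool.Agent.TH656.Bt
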