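import Pool.Agent.TH656.Bt.Constr
import Pool.Agent.TH656.Bx.Tw

/-!
# The treewidth of the graph
-/

set_option autoImplicit false

namespace Pool.Agent.TH656.Bt

open Pool.Agent.TH656.Bx (Chordal treewidth treewidth_le fin_facts)

/-- The position of a vertex on its path. -/
def ppos (v : V4) : ℕ := if v.2.1 = 2 then v.2.2.1 else v.2.2.2

section

variable {a : List ℕ} {b B : ℕ}

theorem mem_path {v : V4} (hv : v ∈ vl a b B) (h2 : 2 ≤ v.2.1) : M a b B v.2 ∧ v.2 ≠ z := by
  rcases mem_vl.1 hv with h | h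
  · rw [h.2] at h2
    simp at h2
  · refine ⟨h.2, fun hc => ?_⟩
    rw [hc] at h2
    simp [z] at h2

theorem path_adj {v w : V4} (hv : v ∈ vl a b B) (hw : w ∈ vl a b B) (h2v : 2 ≤ v.2.1)
    (h2w : 2 ≤ w.2.1) (h : Adj b B v w) : v.1 = w.1 ∧ v.2.1 = w.2.1 ∧
      (v.2.1 = 3 → v.2.2.1 = w.2.2.1) ∧ (ppos v = ppos w + 1 ∨ ppos w = ppos v + 1) := by
  obtain ⟨m1, z1⟩ := mem_path hv h2v
  obtain ⟨m2, z2⟩ := mem_path hw h2w
  obtain ⟨κ, k, i, j⟩ := v
  obtain ⟨κ', k', i', j'⟩ := w
  obtain ⟨h1, h3⟩ := (adj_nz m1 m2 z1 z2).1 h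
  rcases h3 with ⟨h4, h5, h6⟩ | ⟨h4, h5, h6, h7⟩
  · dsimp only at h4 h5 h6
    subst h4; subst h5
    refine ⟨h1, rfl, fun hc => absurd hc (by norm_num), ?_⟩
    simp only [ppos, if_true]
    omega
  · dsimp only at h4 h5 h6 h7
    subst h4; subst h5
    simp only [ppos]
    simp
    omega

theorem path_inj {v w : V4} (hv : v ∈ vl a b B) (hw : w ∈ vl a b B) (h2v : 2 ≤ v.2.1)
    (h2w : 2 ≤ w.2.1) (h0 : v.1 = w.1) (h1 : v.2.1 = w.2.1) (h2 : v.2.1 = 3 → v.2.2.1 = w.2.2.1)
    (h3 : ppos v = ppos w) : v = w := by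
  obtain ⟨m1, z1⟩ := mem_path hv h2v
  obtain ⟨m2, z2⟩ := mem_path hw h2w
  obtain ⟨κ, k, i, j⟩ := v
  obtain ⟨κ', k', i', j'⟩ := w
  dsimp only at h0 h1
  subst h0; subst h1
  rcases m1 with h | h | h
  · exact absurd h z1
  · rcases m2 with h' | h' | h'
    · exact absurd h' z2
    · obtain ⟨h4, h5, h6⟩ := h
      obtain ⟨-, h5', h6'⟩ := h'
      dsimp only at h4 h6 h6'
      subst h4; subst h6; subst h6'
      simp only [ppos, if_true] at h3
      rw [h3]
    · exact absurd (h.1.symm.trans h'.1) (by norm_num)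
  · obtain ⟨h4, h5, h6⟩ := h
    dsimp only at h4
    subst h4
    have h7 := h2 rfl
    dsimp only at h7
    simp [ppos] at h3
    rw [h7, h3]

/-- The chordal supergraph. -/
def sup (a : List ℕ) (b B : ℕ) : SimpleGraph (Fin (vl a b B).length) where
  Adj i j := i ≠ j ∧ (((vl a b B).get i).2.1 = 0 ∨ ((vl a b B).get j).2.1 = 0 ∨
    (((vl a b B).get i).1 = ((vl a b B).get j).1 ∧
      (((vl a b B).get i).2.1 = 1 ∨ ((vl a b B).get j).2.1 = 1)) ∨
    Adj b B ((vl a b B).get i) ((vl a b B).get j))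
  symm := ⟨fun i j h => ⟨h.1.symm, by
    rcases h.2 with h2 | h2 | h2 | h2
    · exact Or.inr (Or.inl h2)
    · exact Or.inl h2
    · exact Or.inr (Or.inr (Or.inl ⟨h2.1.symm, h2.2.symm⟩))
    · exact Or.inr (Or.inr (Or.inr h2.symm))⟩⟩
  loopless := ⟨fun i h => h.1 rfl⟩

theorem le_sup : (gr a b B).graph ≤ sup a b B := by
  intro i j h
  have h1 := (lgr_adj (l := vl a b B) (ad := ad b B) i j).1 h
  exact ⟨h1.1, Or.inr (Or.inr (Or.inr h1.2))⟩

/-- adjacent vertices that are not hubs are in the same copy -/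
theorem same_copy {v w : V4} (hv : v ∈ vl a b B) (hw : w ∈ vl a b B) (h0v : v.2.1 ≠ 0)
    (h0w : w.2.1 ≠ 0) (h : Adj b B v w) : v.1 = w.1 := by
  obtain ⟨κ, v⟩ := v
  obtain ⟨κ', w⟩ := w
  rcases mem_vl.1 hv with ⟨h1, h2⟩ | ⟨h1, h2⟩
  · dsimp only at h2
    rw [h2] at h0v
    exact absurd rfl h0v
  · rcases mem_vl.1 hw with ⟨h3, h4⟩ | ⟨h3, h4⟩
    · dsimp only at h4
      rw [h4] at h0w
      exact absurd rfl h0w
    · dsimp only at h2 h4 ⊢
      by_cases hvz : v = z
      · subst hvz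
        by_cases hwz : w = z
        · subst hwz
          simp [Adj, ad, z] at h
        · exact (adj_z h4 hwz).1 h
      · by_cases hwz : w = z
        · subst hwz
          exact ((adj_z h2 hvz).1 h.symm).symm
        · exact ((adj_nz h2 h4 hvz hwz).1 h).1

theorem sup_same {i j : Fin (vl a b B).length} (h : (sup a b B).Adj i j)
    (hi : ((vl a b B).get i).2.1 ≠ 0) (hj : ((vl a b B).get j).2.1 ≠ 0) :
    ((vl a b B).get i).1 = ((vl a b B).get j).1 := by
  rcases h.2 with h2 | h2 | h2 | h2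
  · exact absurd h2 hi
  · exact absurd h2 hj
  · exact h2.1
  · exact same_copy (List.get_mem _ _) (List.get_mem _ _) hi hj h2

theorem chordal_sup : Chordal (sup a b B) := by
  intro n hn
  refine ⟨fun φ => ?_⟩
  obtain ⟨k, rfl⟩ : ∃ k, n = k + 4 := ⟨n - 4, by omega⟩
  have hadj : ∀ x y : Fin (k + 4), (sup a b B).Adj (φ x) (φ y) ↔ x - y = 1 ∨ y - x = 1 := by
    intro x y
    rw [φ.map_adj_iff]
    exact SimpleGraph.cycleGraph_adj
  obtain ⟨h10, h20, h30⟩ := fin_facts k
  have hne2 : ∀ x : Fin (k + 4), φ x ≠ φ (x + (1 + 1)) := by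
    intro x h2
    have h3 := φ.injective h2
    apply h20
    have h4 : x + 0 = x + (1 + 1) := by rw [add_zero]; exact h3
    exact (add_left_cancel h4).symm
  have hnadj : ∀ x : Fin (k + 4), ¬ (sup a b B).Adj (φ x) (φ (x + (1 + 1))) := by
    intro x h1
    rw [hadj] at h1
    rcases h1 with h1 | h1
    · apply h30
      have e : x - (x + (1 + 1)) = - (1 + 1) := by abel
      rw [e] at h1
      have h2 : (1 : Fin (k + 4)) + (1 + 1) = 0 := by
        nth_rewrite 1 [← h1]
        abel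
      rw [add_assoc]
      exact h2
    · apply h10
      have e : x + (1 + 1) - x = 1 + 1 := by abel
      rw [e] at h1
      exact add_left_cancel (h1.trans (add_zero 1).symm)
  have hk0 : ∀ x : Fin (k + 4), ((vl a b B).get (φ x)).2.1 ≠ 0 := fun x hc =>
    hnadj x ⟨hne2 x, Or.inl hc⟩
  have hcopy : ∀ x : Fin (k + 4), ((vl a b B).get (φ x)).1 = ((vl a b B).get (φ (x + 1))).1 :=
    fun x => sup_same ((hadj _ _).2 (Or.inr (by abel))) (hk0 _) (hk0 _)
  have hk1 : ∀ x : Fin (k + 4), ((vl a b B).get (φ x)).2.1 ≠ 1 := by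
    intro x hc
    refine hnadj x ⟨hne2 x, Or.inr (Or.inr (Or.inl ⟨?_, Or.inl hc⟩))⟩
    rw [hcopy x, hcopy (x + 1), add_assoc]
  have hpath : ∀ x : Fin (k + 4), 2 ≤ ((vl a b B).get (φ x)).2.1 := by
    intro x
    have := hk0 x
    have := hk1 x
    omega
  obtain ⟨x, hx⟩ := Finite.exists_max (fun x : Fin (k + 4) => ppos ((vl a b B).get (φ x)))
  have hmem : ∀ x : Fin (k + 4), (vl a b B).get (φ x) ∈ vl a b B := fun x => List.get_mem _ _
  have hpa : ∀ y, (sup a b B).Adj (φ x) (φ y) →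
      Adj b B ((vl a b B).get (φ x)) ((vl a b B).get (φ y)) := by
    intro y hy
    have hx := hpath x
    have hy' := hpath y
    rcases hy.2 with h1 | h1 | h1 | h1
    · omega
    · omega
    · have := h1.2
      omega
    · exact h1
  have h1 := path_adj (hmem _) (hmem _) (hpath x) (hpath (x + 1))
    (hpa (x + 1) ((hadj _ _).2 (Or.inr (by abel))))
  have h2 := path_adj (hmem _) (hmem _) (hpath x) (hpath (x - 1))
    (hpa (x - 1) ((hadj _ _).2 (Or.inl (by abel))))
  have h3 := hx (x + 1)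
  have h4 := hx (x - 1)
  have h5 := path_inj (hmem (x + 1)) (hmem (x - 1)) (hpath _) (hpath _) (h1.1.symm.trans h2.1)
    (h1.2.1.symm.trans h2.2.1)
    (fun h => (h1.2.2.1 (h1.2.1.trans h)).symm.trans (h2.2.2.1 (h1.2.1.trans h))) (by omega)
  have h6 : φ (x + 1) = φ (x - 1) := (List.Nodup.get_inj_iff (nodup_vl a b B)).1 h5
  have h7 := φ.injective h6
  apply h20
  have e : (1 : Fin (k + 4)) + 1 = (x + 1) - (x - 1) := by abel
  rw [e, h7]
  abel

theorem clique_sup : (sup a b B).cliqueNum ≤ 7 := by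
  classical
  obtain ⟨s, hs⟩ := (sup a b B).exists_isNClique_cliqueNum
  have hinj : Function.Injective (fun i => (vl a b B).get i) := fun i j h =>
    (List.Nodup.get_inj_iff (nodup_vl a b B)).1 h
  set T := s.image (fun i => (vl a b B).get i) with hT
  have hcard : T.card = s.card := Finset.card_image_of_injective _ hinj
  have hTm : ∀ v ∈ T, v ∈ vl a b B := by
    intro v hv
    rw [hT, Finset.mem_image] at hv
    obtain ⟨i, _, rfl⟩ := hv
    exact List.get_mem _ _
  have hTa : ∀ v ∈ T, ∀ w ∈ T, v ≠ w → v.2.1 = 0 ∨ w.2.1 = 0 ∨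
      (v.1 = w.1 ∧ (v.2.1 = 1 ∨ w.2.1 = 1)) ∨ Adj b B v w := by
    intro v hv w hw hvw
    rw [hT, Finset.mem_image] at hv hw
    obtain ⟨i, hi, rfl⟩ := hv
    obtain ⟨j, hj, rfl⟩ := hw
    have hij : i ≠ j := by
      rintro rfl
      exact hvw rfl
    exact (hs.1 hi hj hij).2
  have h1 : (T.filter (fun v => v.2.1 = 0)).card ≤ 4 := by
    have h2 : T.filter (fun v => v.2.1 = 0) ⊆
        (Finset.range 4).image (fun c => ((c, 0, 0, 0) : V4)) := by
      intro v hv
      rw [Finset.mem_filter] at hv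
      rw [Finset.mem_image]
      rcases mem_vl.1 (hTm v hv.1) with h | h
      · refine ⟨v.1, Finset.mem_range.2 h.1, ?_⟩
        obtain ⟨κ, v⟩ := v
        dsimp only at h ⊢
        rw [h.2]
      · have := M_kind h.2
        have := hv.2
        omega
    refine (Finset.card_le_card h2).trans (Finset.card_image_le.trans ?_)
    simp
  have h2 : (T.filter (fun v => v.2.1 = 1)).card ≤ 1 := by
    rw [Finset.card_le_one]
    intro v hv w hw
    rw [Finset.mem_filter] at hv hw
    by_contra hne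
    have hk : ∀ v ∈ T, v.2.1 = 1 → v.2 = z := by
      intro v hv hv1
      rcases mem_vl.1 (hTm v hv) with h | h
      · rw [h.2] at hv1
        simp at hv1
      · rcases h.2 with h3 | h3 | h3
        · exact h3
        · have := h3.1
          omega
        · have := h3.1
          omega
    have e1 := hk v hv.1 hv.2
    have e2 := hk w hw.1 hw.2
    have e3 : v.1 = w.1 := by
      rcases hTa v hv.1 w hw.1 hne with h | h | h | h
      · have := hv.2
        omega
      · have := hw.2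
        omega
      · exact h.1
      · exact same_copy (hTm v hv.1) (hTm w hw.1) (by rw [hv.2]; norm_num)
          (by rw [hw.2]; norm_num) h
    exact hne (Prod.ext e3 (e1.trans e2.symm))
  have h3 : (T.filter (fun v => 2 ≤ v.2.1)).card ≤ 2 := by
    by_contra hc
    rw [not_le] at hc
    obtain ⟨x, hx, y, hy, w, hw, hxy, hxw, hyw⟩ := Finset.two_lt_card.1 hc
    have key : ∀ x ∈ T.filter (fun v => 2 ≤ v.2.1), ∀ y ∈ T.filter (fun v => 2 ≤ v.2.1), x ≠ y →
        (ppos x = ppos y + 1 ∨ ppos y = ppos x + 1) := by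
      intro x hx y hy hxy
      rw [Finset.mem_filter] at hx hy
      rcases hTa x hx.1 y hy.1 hxy with h | h | h | h
      · have := hx.2
        omega
      · have := hy.2
        omega
      · have := hx.2
        have := hy.2
        have := h.2
        omega
      · exact (path_adj (hTm x hx.1) (hTm y hy.1) hx.2 hy.2 h).2.2.2
    have k1 := key x hx y hy hxy
    have k2 := key x hx w hw hxw
    have k3 := key y hy w hw hyw
    omega
  have hcov : T ⊆ T.filter (fun v => v.2.1 = 0) ∪ (T.filter (fun v => v.2.1 = 1) ∪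
      T.filter (fun v => 2 ≤ v.2.1)) := by
    intro v hv
    rw [Finset.mem_union, Finset.mem_union, Finset.mem_filter, Finset.mem_filter,
      Finset.mem_filter]
    have : v.2.1 = 0 ∨ v.2.1 = 1 ∨ 2 ≤ v.2.1 := by omega
    rcases this with h | h | h
    · exact Or.inl ⟨hv, h⟩
    · exact Or.inr (Or.inl ⟨hv, h⟩)
    · exact Or.inr (Or.inr ⟨hv, h⟩)
  have c1 := Finset.card_le_card hcov
  have c2 := Finset.card_union_le (T.filter (fun v => v.2.1 = 0))
    (T.filter (fun v => v.2.1 = 1) ∪ T.filter (fun v => 2 ≤ v.2.1))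
  have c3 := Finset.card_union_le (T.filter (fun v => v.2.1 = 1)) (T.filter (fun v => 2 ≤ v.2.1))
  have h4 := hs.2
  omega

theorem tw_gr : treewidth (gr a b B).graph ≤ 6 :=
  treewidth_le (V := Fin (vl a b B).length) le_sup chordal_sup clique_sup

end

end Pool.Agent.TH656.Bt
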