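import Pool.Agent.TH656.Bt.Complete
import Pool.Agent.TH656.Bt.Tw
import Pool.Agent.H43R3.SN.SRC
import Pool.Agent.H243R3.SN.Poly

/-!
# The reduction from exact cover
-/

set_option autoImplicit false

namespace Pool.Agent.TH656.Bt

open Pool.Agent.NPC Pool.Agent.NPC.H632 Pool.Agent.H557R2.Tri Pool.Agent.H692R2
open Pool.Agent.H43R3.SN Pool.Agent.NPC.SNP
open Pool.Agent.TH656.Bx (treewidth)

section Gen

variable {α : Type} [TEnc α]

theorem poly_ad {b B : α → ℕ} (hb : Poly b) (hB : Poly B) :
    Poly (fun p : α × V4 × V4 => ad (b p.1) (B p.1) p.2.1 p.2.2) := by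
  unfold ad ray isep
  have h1 : Poly (fun p : α × V4 × V4 => b p.1) := hb.comp (NPC.Poly.fst NPC.Poly.id)
  have h2 : Poly (fun p : α × V4 × V4 => B p.1) := hB.comp (NPC.Poly.fst NPC.Poly.id)
  fun_prop

theorem poly_cl {a : α → List ℕ} {b B M : α → ℕ} (ha : Poly a) (hb : UPoly b) (hB : UPoly B)
    (hM : UPoly M) (h : ∀ x i, (a x).getD i 0 ≤ M x) :
    Poly (fun x => cl (a x) (b x) (B x)) := by
  unfold cl
  have r1 : Poly (fun x => List.range (b x * (10 * B x + 3) + 1)) :=
    (UPoly.add (UPoly.mul hb (UPoly.add (UPoly.mul (UPoly.const 10) hB) (UPoly.const 3)))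
      (UPoly.const 1)).range
  have r3 : Poly (fun x => List.range (a x).length) := (UPoly.length ha).range
  have r4 : Poly (fun p : α × ℕ => List.range (10 * (a p.1).getD p.2 0 + 1)) := by
    refine UPoly.range ?_
    refine UPoly.add (UPoly.mul (UPoly.const 10) ?_) (UPoly.const 1)
    refine UPoly.of_le (n := fun p : α × ℕ => M p.1) ?_ (hM.comp (NPC.Poly.fst NPC.Poly.id))
      fun p => h p.1 p.2
    exact NPC.Poly.getD (ha.comp (NPC.Poly.fst NPC.Poly.id)) (NPC.Poly.snd NPC.Poly.id)
      (NPC.Poly.const 0)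
  have m1 : Poly (fun x => (List.range (b x * (10 * B x + 3) + 1)).map
      (fun i => ((2, i, 0) : LV))) :=
    NPC.Poly.map (F := fun _ i => ((2, i, 0) : LV)) r1 (by fun_prop)
  have m3 : Poly (fun x => (List.range (a x).length).flatMap (fun i =>
      (List.range (10 * (a x).getD i 0 + 1)).map (fun q => ((3, i, q) : LV)))) := by
    refine NPC.Poly.flatMap (F := fun x i =>
      (List.range (10 * (a x).getD i 0 + 1)).map (fun q => ((3, i, q) : LV))) r3 ?_
    exact NPC.Poly.map (F := fun (p : α × ℕ) q => ((3, p.2, q) : LV)) r4 (by fun_prop)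
  exact NPC.Poly.append (NPC.Poly.append (NPC.Poly.const [z]) m1) m3

theorem poly_vl {a : α → List ℕ} {b B M : α → ℕ} (ha : Poly a) (hb : UPoly b) (hB : UPoly B)
    (hM : UPoly M) (h : ∀ x i, (a x).getD i 0 ≤ M x) :
    Poly (fun x => vl (a x) (b x) (B x)) := by
  unfold vl
  have hc := poly_cl ha hb hB hM h
  have m1 : Poly (fun _ : α => (List.range 4).map (fun c => ((c, 0, 0, 0) : V4))) :=
    NPC.Poly.const _
  have r2 : Poly (fun _ : α => List.range KK) := NPC.Poly.const _
  have m2 : Poly (fun x => (List.range KK).flatMap (fun κ =>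
      (cl (a x) (b x) (B x)).map (fun v => ((κ, v) : V4)))) := by
    refine NPC.Poly.flatMap (F := fun x κ =>
      (cl (a x) (b x) (B x)).map (fun v => ((κ, v) : V4))) r2 ?_
    exact NPC.Poly.map (F := fun (p : α × ℕ) v => ((p.2, v) : V4))
      (hc.comp (NPC.Poly.fst NPC.Poly.id)) (by fun_prop)
  exact NPC.Poly.append m1 m2

theorem poly_gr {a : α → List ℕ} {b B M : α → ℕ} (ha : Poly a) (hb : UPoly b) (hB : UPoly B)
    (hM : UPoly M) (h : ∀ x i, (a x).getD i 0 ≤ M x) :
    Poly (fun x => gr (a x) (b x) (B x)) := by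
  unfold gr
  exact poly_lgr (0, 0, 0, 0) (poly_vl ha hb hB hM h) (poly_ad hb.toPoly hB.toPoly)

end Gen

/-- The graph of an instance of exact cover by 3-sets. -/
noncomputable def red (I : List (ℕ × ℕ × ℕ) × ℕ) : FinGraph :=
  if tst I then gr (sizes (clip I)) (bb (clip I)) (BB (clip I)) else gr [2] 1 1

theorem poly_red : Poly red := by
  unfold red
  refine NPC.Poly.ite (p := tst) poly_tst ?_ (NPC.Poly.const _)
  exact poly_gr (poly_sizes.comp poly_clip) ubb uBB (UPoly.mul ubb uBB) fun I i =>
    (getD_le_sum _ i).trans (clip_tst I).1.le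

theorem red_tw (I : List (ℕ × ℕ × ℕ) × ℕ) : treewidth (red I).graph ≤ 6 := by
  by_cases h : tst I
  · have hr : red I = gr (sizes (clip I)) (bb (clip I)) (BB (clip I)) := by
      unfold red
      rw [if_pos h]
    rw [hr]
    exact tw_gr
  · have hr : red I = gr [2] 1 1 := by
      unfold red
      rw [if_neg h]
    rw [hr]
    exact tw_gr

theorem sizes_pos (I : List (ℕ × ℕ × ℕ) × ℕ) :
    ∀ i < (sizes I).length, 1 ≤ (sizes I).getD i 0 := by
  intro i hi
  rw [List.getD_eq_getElem _ _ hi]
  have h1 : (sizes I)[i] ∈ sizes I := List.getElem_mem hi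
  unfold sizes at h1
  rw [List.mem_map] at h1
  obtain ⟨e, _, he⟩ := h1
  have h2 : (sizes I)[i] = min (Pool.Agent.H43R3.SN.sz I.1.length I.2 e)
      (20 * MM I.1.length I.2) := by
    rw [he]; rfl
  rw [h2]
  have h3 : 1 ≤ MM I.1.length I.2 := by unfold MM; omega
  have h4 : 1 ≤ wt e.1 := by unfold wt; split_ifs <;> norm_num
  have h5 : 1 ≤ MM I.1.length I.2 * wt e.1 := Nat.one_le_iff_ne_zero.2 (by
    intro h; rcases Nat.mul_eq_zero.1 h with h | h <;> omega)
  refine le_min ?_ (by omega)
  unfold Pool.Agent.H43R3.SN.sz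
  omega

theorem red_correct (I : List (ℕ × ℕ × ℕ) × ℕ) (hI : Pr I.1 I.2) :
    X3C I ↔ bookThickness (red I).graph ≤ 4 := by
  have hbd : Pool.Agent.NPC.SNP.bd I = I := by
    unfold Pool.Agent.NPC.SNP.bd
    rw [Nat.min_eq_left (q_le hI)]
  rw [bookThickness_le_iff, Pool.Agent.H43R3.SN.SRC.taskSRC I hI]
  have hb : 1 ≤ bb I := by
    have := hI.ne
    have h2 : 0 < I.1.length := List.length_pos_iff.2 this
    unfold bb
    omega
  by_cases h : tst I
  · have hc : clip I = I := by
      unfold clip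
      rw [if_pos h, hbd]
    have hr : red I = gr (sizes I) (bb I) (BB I) := by
      unfold red
      rw [if_pos h, hc]
    rw [hr]
    have hsum : (sizes I).sum = bb I * BB I := by
      unfold tst at h
      rwa [hbd] at h
    constructor
    · rintro ⟨_, h1⟩
      exact complete (sizes_pos I) h1
    · intro h1
      exact ⟨hsum, sound hb h1⟩
  · have hr : red I = gr [2] 1 1 := by
      unfold red
      rw [if_neg h]
    rw [hr]
    constructor
    · rintro ⟨h1, _⟩
      exfalso
      apply h
      unfold tst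
      rwa [hbd]
    · intro h1
      exfalso
      obtain ⟨f, hf1, hf2⟩ := sound le_rfl h1
      have h3 := hf1 0 (by simp)
      have h4 := hf2 0 (by norm_num)
      have h5 : f 0 = 0 := by omega
      simp [Finset.sum_filter, h5] at h4

/-- Exact cover reduces to book thickness at most four, for graphs of treewidth at most six. -/
theorem hard : HardPr (fun G : FinGraph => treewidth G.graph ≤ 6)
    (fun G => bookThickness G.graph ≤ 4) :=
  hardPr_X3Cr.trans poly_red (fun I _ => red_tw I) red_correct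

end Pool.Agent.TH656.Bt
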