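import Pool.Agent.TH656.Bt.Constr

/-!
# A book embedding with four pages gives a packing
-/

set_option autoImplicit false

namespace Pool.Agent.TH656.Bt

/-- the pairs `p q` and `r t` do not cross -/
def NC (p q r t : ℤ) : Prop :=
  ¬ (p < r ∧ r < q ∧ q < t) ∧ ¬ (p < t ∧ t < q ∧ q < r) ∧
  ¬ (q < r ∧ r < p ∧ p < t) ∧ ¬ (q < t ∧ t < p ∧ p < r) ∧
  ¬ (r < p ∧ p < t ∧ t < q) ∧ ¬ (r < q ∧ q < t ∧ t < p) ∧
  ¬ (t < p ∧ p < r ∧ r < q) ∧ ¬ (t < q ∧ q < r ∧ r < p)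

theorem NC.block {p q r t : ℤ} (h : NC p q r t) (hb : (p < r ∧ r < q) ∨ (q < r ∧ r < p))
    (ho : (t < p ∧ t < q) ∨ (p < t ∧ q < t)) : False := by
  unfold NC at h
  omega

theorem NC.symm {p q r t : ℤ} (h : NC p q r t) : NC r t q p := by
  unfold NC at *
  omega

theorem NC.symm' {p q r t : ℤ} (h : NC p q r t) : NC r t p q := by
  unfold NC at *
  omega

theorem NC.type {p q r t : ℤ} (n1 : NC p r q t) (n2 : NC p t q r) (hpq : p < q) (hrt : r ≠ t)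
    (hr : (r < p ∧ r < q) ∨ (p < r ∧ q < r)) (ht : (t < p ∧ t < q) ∨ (p < t ∧ q < t)) : False := by
  unfold NC at n1 n2
  omega

theorem NC.ray {v r p q t : ℤ} (n1 : NC v r p t) (n2 : NC v r q t) (hpv : p < v) (hvq : v < q)
    (hrt : t ≠ r) (hr : r < p ∨ q < r) (ht : t < p ∨ q < t) : False := by
  unfold NC at n1 n2
  omega

theorem NC.conf {v w p q t : ℤ} (n1 : NC v w p t) (n2 : NC v w q t) (hpv : p < v) (hvq : v < q)
    (hwt : w ≠ t) (hwp : w ≠ p) (hwq : w ≠ q) (ht : t < p ∨ q < t) : p < w ∧ w < q := by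
  unfold NC at n1 n2
  omega

theorem pigeon {γ : Type} [Fintype γ] [DecidableEq γ] (g : ℕ → γ) (K : ℕ)
    (h : Fintype.card γ * 2 < K) : ∃ F : Finset ℕ, 2 < F.card ∧ (∀ κ ∈ F, κ < K) ∧
      ∃ y, ∀ κ ∈ F, g κ = y := by
  obtain ⟨y, -, hy⟩ := Finset.exists_lt_card_fiber_of_mul_lt_card_of_maps_to (s := Finset.range K)
    (t := Finset.univ) (f := g) (n := 2) (fun _ _ => Finset.mem_univ _) (by
      rw [Finset.card_range]
      exact h)
  exact ⟨_, hy, fun κ hκ => Finset.mem_range.1 (Finset.mem_filter.1 hκ).1, y,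
    fun κ hκ => (Finset.mem_filter.1 hκ).2⟩

section

variable {a : List ℕ} {b B : ℕ} {pos : V4 → ℤ} {pg : V4 → V4 → ℕ}

theorem Emb.nc (h : Emb a b B pos pg) {v w x y : V4} (hv : v ∈ vl a b B) (hw : w ∈ vl a b B)
    (hx : x ∈ vl a b B) (hy : y ∈ vl a b B) (h1 : Adj b B v w) (h2 : Adj b B x y)
    (h3 : pg v w = pg x y) : NC (pos v) (pos w) (pos x) (pos y) := by
  have s1 := h.sym v w
  have s2 := h.sym x y
  refine ⟨fun hc => ?_, fun hc => ?_, fun hc => ?_, fun hc => ?_, fun hc => ?_, fun hc => ?_,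
    fun hc => ?_, fun hc => ?_⟩
  · exact h.cr v w x y hv hw hx hy h1 h2 hc.1 hc.2.1 hc.2.2 h3
  · exact h.cr v w y x hv hw hy hx h1 h2.symm hc.1 hc.2.1 hc.2.2 (by omega)
  · exact h.cr w v x y hw hv hx hy h1.symm h2 hc.1 hc.2.1 hc.2.2 (by omega)
  · exact h.cr w v y x hw hv hy hx h1.symm h2.symm hc.1 hc.2.1 hc.2.2 (by omega)
  · exact h.cr x y v w hx hy hv hw h2 h1 hc.1 hc.2.1 hc.2.2 (by omega)
  · exact h.cr x y w v hx hy hw hv h2 h1.symm hc.1 hc.2.1 hc.2.2 (by omega)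
  · exact h.cr y x v w hy hx hv hw h2.symm h1 hc.1 hc.2.1 hc.2.2 (by omega)
  · exact h.cr y x w v hy hx hw hv h2.symm h1.symm hc.1 hc.2.1 hc.2.2 (by omega)

theorem mem_hub {c : ℕ} (hc : c < 4) : ((c, 0, 0, 0) : V4) ∈ vl a b B :=
  mem_vl.2 (Or.inl ⟨hc, rfl⟩)

theorem mem_copy {κ : ℕ} {v : LV} (hκ : κ < KK) (hv : M a b B v) : ((κ, v) : V4) ∈ vl a b B :=
  mem_vl.2 (Or.inr ⟨hκ, hv⟩)

theorem M0 : M a b B (u 0) := M_u (Nat.zero_le _)

theorem adj_wall {κ c : ℕ} : Adj b B (κ, u 0) (c, 0, 0, 0) :=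
  (adj_hub (by simp [u])).2 ray_w0

/-- Three walls in the same zone, seen in the same way by the hubs. -/
theorem Emb.three (h : Emb a b B pos pg) : ∃ (κ₁ κ₂ κ₃ : ℕ) (φ : Fin 4 → Fin 4) (s : Fin 4 → Bool),
    κ₁ < KK ∧ κ₂ < KK ∧ κ₃ < KK ∧ pos (κ₁, u 0) < pos (κ₂, u 0) ∧ pos (κ₂, u 0) < pos (κ₃, u 0) ∧
    ∀ κ, κ = κ₁ ∨ κ = κ₂ ∨ κ = κ₃ → ∀ c : Fin 4, pg (κ, u 0) ((c : ℕ), 0, 0, 0) = φ c ∧
      (s c = true ↔ pos ((c : ℕ), 0, 0, 0) < pos (κ, u 0)) := by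
  classical
  set g : ℕ → (Fin 4 → Fin 4) × (Fin 4 → Bool) := fun κ =>
    (fun c => ⟨pg (κ, u 0) ((c : ℕ), 0, 0, 0), h.lt _ _⟩,
      fun c => decide (pos ((c : ℕ), 0, 0, 0) < pos (κ, u 0))) with hg
  obtain ⟨F, hy, lt_of, y, hgy⟩ := pigeon g KK (by
    rw [Fintype.card_prod, Fintype.card_fun, Fintype.card_fun, KK_eq, Fintype.card_fin,
      Fintype.card_bool]
    norm_num)
  have hFn : F.Nonempty := by
    rw [← Finset.card_pos]
    omega
  obtain ⟨κ₁, hκ₁, hmin⟩ := Finset.exists_min_image F (fun κ => pos (κ, u 0)) hFn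
  obtain ⟨κ₃, hκ₃, hmax⟩ := Finset.exists_max_image F (fun κ => pos (κ, u 0)) hFn
  have hex : ∃ κ₂ ∈ F, κ₂ ≠ κ₁ ∧ κ₂ ≠ κ₃ := by
    by_contra hno
    push Not at hno
    have : F ⊆ {κ₁, κ₃} := by
      intro κ hκ
      rw [Finset.mem_insert, Finset.mem_singleton]
      by_cases h1 : κ = κ₁
      · exact Or.inl h1
      · exact Or.inr (hno κ hκ h1)
    have := Finset.card_le_card this
    have := Finset.card_le_two (a := κ₁) (b := κ₃)
    omega
  obtain ⟨κ₂, hκ₂, h21, h23⟩ := hex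
  have hne : ∀ κ ∈ F, ∀ κ' ∈ F, κ ≠ κ' → pos (κ, u 0) ≠ pos (κ', u 0) := by
    intro κ hκ κ' hκ' hne hc
    have := h.inj _ _ (mem_copy (lt_of κ hκ) M0) (mem_copy (lt_of κ' hκ') M0) hc
    simp only [Prod.mk.injEq] at this
    exact hne this.1
  have n21 := hne κ₂ hκ₂ κ₁ hκ₁ h21
  have n23 := hne κ₂ hκ₂ κ₃ hκ₃ h23
  have m1 := hmin κ₂ hκ₂
  have m3 := hmax κ₂ hκ₂
  refine ⟨κ₁, κ₂, κ₃, y.1, y.2, lt_of _ hκ₁, lt_of _ hκ₂, lt_of _ hκ₃, by omega, by omega, ?_⟩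
  intro κ hκ c
  have hκF : κ ∈ F := by
    rcases hκ with rfl | rfl | rfl
    · exact hκ₁
    · exact hκ₂
    · exact hκ₃
  have hgy' : g κ = y := hgy κ hκF
  constructor
  · rw [← hgy']
  · rw [← hgy']
    simp [hg]

/-- The regular zone: a copy between two walls. -/
theorem Emb.exists_loc (h : Emb a b B pos pg) (hb : 1 ≤ b) : ∃ P pg', Loc a b B P pg' := by
  classical
  obtain ⟨κ₁, κ₂, κ₃, φ, s, k1, k2, k3, h12, h23, hφ⟩ := h.three
  have A1 := hφ κ₁ (Or.inl rfl)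
  have A3 := hφ κ₃ (Or.inr (Or.inr rfl))
  have mw1 : ((κ₁, u 0) : V4) ∈ vl a b B := mem_copy k1 M0
  have mw2 : ((κ₂, u 0) : V4) ∈ vl a b B := mem_copy k2 M0
  have mw3 : ((κ₃, u 0) : V4) ∈ vl a b B := mem_copy k3 M0
  -- hubs are outside
  have hout : ∀ c : Fin 4, pos ((c : ℕ), 0, 0, 0) < pos (κ₁, u 0) ∨
      pos (κ₃, u 0) < pos ((c : ℕ), 0, 0, 0) := by
    intro c
    have n3 : pos ((c : ℕ), 0, 0, 0) ≠ pos (κ₃, u 0) := by
      intro hc
      have := h.inj _ _ (mem_hub c.2) mw3 hc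
      simp [u] at this
    by_cases hs : s c = true
    · exact Or.inl ((A1 c).2.1 hs)
    · right
      have := mt (A3 c).2.2 hs
      omega
  have hubne : ∀ c c' : Fin 4, c ≠ c' → pos ((c : ℕ), 0, 0, 0) ≠ pos ((c' : ℕ), 0, 0, 0) := by
    intro c c' hcc hc
    have := h.inj _ _ (mem_hub c.2) (mem_hub c'.2) hc
    simp only [Prod.mk.injEq] at this
    exact hcc (Fin.ext this.1)
  -- the types are bijections
  have hinj : Function.Injective φ := by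
    intro c c' hcc
    by_contra hne
    have e1 : pg (κ₁, u 0) ((c : ℕ), 0, 0, 0) = pg (κ₃, u 0) ((c' : ℕ), 0, 0, 0) := by
      rw [(A1 c).1, (A3 c').1, hcc]
    have e2 : pg (κ₁, u 0) ((c' : ℕ), 0, 0, 0) = pg (κ₃, u 0) ((c : ℕ), 0, 0, 0) := by
      rw [(A1 c').1, (A3 c).1, hcc]
    have n1 := h.nc mw1 (mem_hub c.2) mw3 (mem_hub c'.2) adj_wall adj_wall e1
    have n2 := h.nc mw1 (mem_hub c'.2) mw3 (mem_hub c.2) adj_wall adj_wall e2
    have o1 := hout c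
    have o2 := hout c'
    have n3 := hubne c c' hne
    exact n1.type n2 (by omega) n3 (by omega) (by omega)
  have hsurj : Function.Surjective φ := Finite.surjective_of_injective hinj
  -- the rays
  have hray : ∀ v : V4, v ∈ vl a b B → pos (κ₁, u 0) < pos v → pos v < pos (κ₃, u 0) →
      ∀ c : Fin 4, Adj b B v ((c : ℕ), 0, 0, 0) → pg v ((c : ℕ), 0, 0, 0) = φ c := by
    intro v hv hv1 hv3 c hadj
    obtain ⟨c', hc'⟩ := hsurj ⟨pg v ((c : ℕ), 0, 0, 0), h.lt _ _⟩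
    by_cases hcc : c' = c
    · subst hcc
      rw [hc']
    exfalso
    have e0 : pg v ((c : ℕ), 0, 0, 0) = φ c' := by rw [hc']
    have n1 := h.nc hv (mem_hub c.2) mw1 (mem_hub c'.2) hadj adj_wall (by rw [e0, (A1 c').1])
    have n2 := h.nc hv (mem_hub c.2) mw3 (mem_hub c'.2) hadj adj_wall (by rw [e0, (A3 c').1])
    have o1 := hout c
    have o2 := hout c'
    have n3 := hubne c' c hcc
    exact n1.ray n2 hv1 hv3 n3 o1 o2
  -- no edge leaves the zone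
  have hconf : ∀ v w : V4, v ∈ vl a b B → w ∈ vl a b B → Adj b B v w → v.2.1 ≠ 0 → w.2.1 ≠ 0 →
      pos (κ₁, u 0) < pos v → pos v < pos (κ₃, u 0) → w ≠ (κ₁, u 0) → w ≠ (κ₃, u 0) →
      pos (κ₁, u 0) < pos w ∧ pos w < pos (κ₃, u 0) := by
    intro v w hv hw hadj hv0 hw0 hv1 hv3 hw1 hw3
    obtain ⟨c, hc⟩ := hsurj ⟨pg v w, h.lt _ _⟩
    have e0 : pg v w = φ c := by rw [hc]
    have n1 := h.nc hv hw mw1 (mem_hub c.2) hadj adj_wall (by rw [e0, (A1 c).1])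
    have n2 := h.nc hv hw mw3 (mem_hub c.2) hadj adj_wall (by rw [e0, (A3 c).1])
    have o1 := hout c
    have d1 : pos w ≠ pos (κ₁, u 0) := fun hc => hw1 (h.inj _ _ hw mw1 hc)
    have d3 : pos w ≠ pos (κ₃, u 0) := fun hc => hw3 (h.inj _ _ hw mw3 hc)
    have d4 : pos w ≠ pos ((c : ℕ), 0, 0, 0) := fun hc => by
      have := h.inj _ _ hw (mem_hub c.2) hc
      rw [this] at hw0
      exact hw0 rfl
    exact n1.conf n2 hv1 hv3 d4 d1 d3 o1
  have h21 : κ₂ ≠ κ₁ := by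
    rintro rfl
    omega
  have h23' : κ₂ ≠ κ₃ := by
    rintro rfl
    omega
  have hzz : pos (κ₁, u 0) < pos (κ₂, z) ∧ pos (κ₂, z) < pos (κ₃, u 0) := by
    refine hconf (κ₂, u 0) (κ₂, z) mw2 (mem_copy k2 M_z) ((adj_z (a := a) M0 u_ne_z).2 rfl).symm ?_ ?_
      h12 h23 ?_ ?_
    · simp [u]
    · simp [z]
    · simp [z, u]
    · simp [z, u]
  have hall : ∀ v, M a b B v → pos (κ₁, u 0) < pos (κ₂, v) ∧ pos (κ₂, v) < pos (κ₃, u 0) := by
    intro v hv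
    by_cases hvz : v = z
    · subst hvz
      exact hzz
    have hk := M_kind hv
    refine hconf (κ₂, z) (κ₂, v) (mem_copy k2 M_z) (mem_copy k2 hv) ((adj_z hv hvz).2 rfl) ?_ ?_
      hzz.1 hzz.2 ?_ ?_
    · simp [z]
    · show v.1 ≠ 0
      omega
    · intro hc
      rw [Prod.mk.injEq] at hc
      exact h21 hc.1
    · intro hc
      rw [Prod.mk.injEq] at hc
      exact h23' hc.1
  -- the new pages
  obtain ⟨ψ, hψlt, hψφ, hψinj⟩ : ∃ ψ : ℕ → ℕ, (∀ n, ψ n < 4) ∧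
      (∀ n, n < 4 → ∃ c : Fin 4, (c : ℕ) = ψ n ∧ (φ c : ℕ) = n) ∧
      (∀ m n, m < 4 → n < 4 → ψ m = ψ n → m = n) := by
    have hex : ∀ n, ∃ c : Fin 4, n < 4 → (φ c : ℕ) = n := by
      intro n
      by_cases hn : n < 4
      · obtain ⟨c, hc⟩ := hsurj ⟨n, hn⟩
        exact ⟨c, fun _ => by rw [hc]⟩
      · exact ⟨0, fun h' => absurd h' hn⟩
    choose c hc using hex
    refine ⟨fun n => c n, fun n => (c n).2, fun n hn => ⟨c n, rfl, hc n hn⟩, ?_⟩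
    intro m n hm hn hmn
    have e1 : c m = c n := Fin.ext hmn
    rw [← hc m hm, ← hc n hn, e1]
  -- blocking
  have hblock : ∀ v w y, M a b B v → M a b B w → M a b B y → Adj b B (κ₂, v) (κ₂, w) →
      BT (fun v => pos (κ₂, v)) v y w → ray b B y (ψ (pg (κ₂, v) (κ₂, w))) = false := by
    intro v w y hv hw hy hadj hbt
    rw [← Bool.not_eq_true]
    intro hr
    have hk := M_kind hy
    have hadj' : Adj b B (κ₂, y) ((ψ (pg (κ₂, v) (κ₂, w))), 0, 0, 0) :=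
      (adj_hub (by omega)).2 hr
    obtain ⟨c, hc1, hc2⟩ := hψφ (pg (κ₂, v) (κ₂, w)) (h.lt _ _)
    rw [← hc1] at hadj'
    have h1 := hray (κ₂, y) (mem_copy k2 hy) (hall y hy).1 (hall y hy).2 c hadj'
    rw [hc2] at h1
    have h2 := h.nc (mem_copy k2 hv) (mem_copy k2 hw) (mem_copy k2 hy) (mem_hub c.2) hadj
      hadj' h1.symm
    have o1 := hout c
    have o2 := hall v hv
    have o3 := hall w hw
    exact h2.block hbt (by omega)
  have hpos : ∀ v w, M a b B v → M a b B w → pos (κ₂, v) = pos (κ₂, w) → v = w := by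
    intro v w hv hw hvw
    have := h.inj _ _ (mem_copy k2 hv) (mem_copy k2 hw) hvw
    rw [Prod.mk.injEq] at this
    exact this.2
  have main : ∀ σ : ℤ, (σ = 1 ∨ σ = -1) →
      σ * pos (κ₂, u 0) < σ * pos (κ₂, u (b * (10 * B + 3))) →
      Loc a b B (fun v => σ * pos (κ₂, v)) (fun v w => ψ (pg (κ₂, v) (κ₂, w))) := by
    intro σ hσ hor
    have hbt : ∀ v y w, BT (fun v => σ * pos (κ₂, v)) v y w ↔ BT (fun v => pos (κ₂, v)) v y w := by
      intro v y w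
      unfold BT
      dsimp only
      rcases hσ with rfl | rfl
      · simp
      · omega
    refine ⟨?_, fun _ _ => hψlt _, ?_, ?_, ?_, ?_, ?_, hor⟩
    · intro v w hv hw hvw
      refine hpos v w hv hw ?_
      rcases hσ with rfl | rfl
      · simpa using hvw
      · omega
    · intro v w
      rw [h.sym]
    · intro v w hv hvz hw hb
      rw [hbt] at hb
      exact hblock z v w M_z hv hw ((adj_z hv hvz).2 rfl) hb
    · intro v y w hv hy hE hw hb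
      rw [hbt] at hb
      exact hblock v y w hv hy hw ((adj_nz hv hy hE.ne_z hE.symm.ne_z).2 ⟨rfl, hE⟩) hb
    · intro v y w hv hy hE hw hwz hb hnb
      rw [hbt] at hb hnb
      intro hc
      have hc' := hψinj _ _ (h.lt _ _) (h.lt _ _) hc
      have h2 := h.nc (mem_copy k2 M_z) (mem_copy k2 hw) (mem_copy k2 hv) (mem_copy k2 hy)
        ((adj_z hw hwz).2 rfl) ((adj_nz hv hy hE.ne_z hE.symm.ne_z).2 ⟨rfl, hE⟩) hc'
      have d1 : pos (κ₂, z) ≠ pos (κ₂, v) := fun hc => hE.ne_z (hpos _ _ M_z hv hc).symm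
      have d2 : pos (κ₂, z) ≠ pos (κ₂, y) := fun hc => hE.symm.ne_z (hpos _ _ M_z hy hc).symm
      unfold BT at hb hnb
      dsimp only at hb hnb
      exact h2.symm.block hb (by omega)
    · intro v y w hv hy hE hw hwz hwv hwy hb hnb
      rw [hbt] at hb hnb
      intro hc
      have hc' := hψinj _ _ (h.lt _ _) (h.lt _ _) hc
      have h2 := h.nc (mem_copy k2 M_z) (mem_copy k2 hw) (mem_copy k2 hv) (mem_copy k2 hy)
        ((adj_z hw hwz).2 rfl) ((adj_nz hv hy hE.ne_z hE.symm.ne_z).2 ⟨rfl, hE⟩) hc'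
      have d1 : pos (κ₂, w) ≠ pos (κ₂, v) := fun hc => hwv (hpos _ _ hw hv hc)
      have d2 : pos (κ₂, w) ≠ pos (κ₂, y) := fun hc => hwy (hpos _ _ hw hy hc)
      unfold BT at hb hnb
      dsimp only at hb hnb
      exact h2.symm'.block hb (by omega)
  have hN : 0 < b * (10 * B + 3) := Nat.mul_pos (by omega) (by omega)
  have hne : pos (κ₂, u 0) ≠ pos (κ₂, u (b * (10 * B + 3))) := by
    intro hc
    have := hpos _ _ M0 (M_u le_rfl) hc
    rw [u_inj] at this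
    omega
  rcases lt_or_gt_of_ne hne with h1 | h1
  · exact ⟨_, _, main 1 (Or.inl rfl) (by omega)⟩
  · exact ⟨_, _, main (-1) (Or.inr rfl) (by omega)⟩

/-- **Soundness.** -/
theorem sound (hb : 1 ≤ b) (h : HasBookEmbedding (gr a b B).graph 4) :
    ∃ f : ℕ → ℕ, (∀ i < a.length, f i < b) ∧
      ∀ j < b, ∑ i ∈ (Finset.range a.length).filter (fun i => f i = j), a.getD i 0 ≤ B := by
  obtain ⟨pos, pg, h1⟩ := emb_iff.1 h
  obtain ⟨P, pg', h2⟩ := h1.exists_loc hb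
  exact h2.pack hb

end

end Pool.Agent.TH656.Bt
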